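import Mathlib

/-!
# Two roots close to a point where `p` and `p'` are small
-/

open Polynomial

namespace Pool.Agent.Lib.MP_625f41_nt.H7

/-- Derivatives at a point which is far from all roots. -/
lemma far (x₀ : ℂ) {ρ : ℝ} (hρ : 0 < ρ) (c : ℂ) (t : Multiset ℂ) :
    (∀ a ∈ t, ρ ≤ ‖x₀ - a‖) →
    ‖(C c * (t.map fun a => X - C a).prod).derivative.eval x₀‖ ≤
        t.card / ρ * ‖(C c * (t.map fun a => X - C a).prod).eval x₀‖ ∧
      ‖(C c * (t.map fun a => X - C a).prod).derivative.derivative.eval x₀‖ ≤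
        (t.card / ρ) ^ 2 * ‖(C c * (t.map fun a => X - C a).prod).eval x₀‖ := by
  induction t using Multiset.induction_on with
  | empty => intro _; simp
  | cons a t ih =>
    intro h
    obtain ⟨h1, h2⟩ := ih fun b hb => h b (Multiset.mem_cons_of_mem hb)
    have ha := h a (Multiset.mem_cons_self a t)
    have hq : C c * (((a ::ₘ t).map fun a => X - C a).prod) =
        (X - C a) * (C c * (t.map fun a => X - C a).prod) := by
      rw [Multiset.map_cons, Multiset.prod_cons]
      ring
    rw [hq]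
    set q : ℂ[X] := C c * (t.map fun a => X - C a).prod with hqdef
    have e0 : ((X - C a) * q).eval x₀ = (x₀ - a) * q.eval x₀ := by simp
    have e1 : ((X - C a) * q).derivative.eval x₀ =
        q.eval x₀ + (x₀ - a) * q.derivative.eval x₀ := by
      simp [derivative_mul]
    have e2 : ((X - C a) * q).derivative.derivative.eval x₀ =
        2 * q.derivative.eval x₀ + (x₀ - a) * q.derivative.derivative.eval x₀ := by
      simp [derivative_mul]
      ring
    rw [e0, e1, e2, norm_mul, Multiset.card_cons]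
    set n : ℝ := (t.card : ℝ) with hn
    have hn0 : 0 ≤ n := Nat.cast_nonneg _
    set A := ‖q.eval x₀‖ with hA
    set B := ‖q.derivative.eval x₀‖ with hB
    set D := ‖q.derivative.derivative.eval x₀‖ with hD
    set d := ‖x₀ - a‖ with hd
    have hA0 : 0 ≤ A := norm_nonneg _
    have hd0 : 0 ≤ d := norm_nonneg _
    have hAd : A ≤ d / ρ * A := by
      have : 1 ≤ d / ρ := by rw [le_div_iff₀ hρ]; linarith
      nlinarith
    push_cast
    constructor
    · calc ‖q.eval x₀ + (x₀ - a) * q.derivative.eval x₀‖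
          ≤ A + d * B := by
            refine (norm_add_le _ _).trans ?_
            rw [norm_mul]
        _ ≤ d / ρ * A + d * (n / ρ * A) := by
            have := mul_le_mul_of_nonneg_left h1 hd0
            linarith
        _ = (n + 1) / ρ * (d * A) := by ring
    · calc ‖2 * q.derivative.eval x₀ + (x₀ - a) * q.derivative.derivative.eval x₀‖
          ≤ 2 * B + d * D := by
            refine (norm_add_le _ _).trans ?_
            have h2n : ‖(2 : ℂ)‖ = 2 := by norm_num
            rw [norm_mul, norm_mul, h2n]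
        _ ≤ 2 * (n / ρ * A) + d * ((n / ρ) ^ 2 * A) := by
            have := mul_le_mul_of_nonneg_left h2 hd0
            linarith
        _ ≤ 2 * (n / ρ * (d / ρ * A)) + d * ((n / ρ) ^ 2 * A) := by
            have h3 : 0 ≤ n / ρ := div_nonneg hn0 hρ.le
            have := mul_le_mul_of_nonneg_left hAd h3
            linarith
        _ = ((n ^ 2 + 2 * n) / ρ ^ 2) * (d * A) := by
            field_simp
            ring
        _ ≤ ((n + 1) / ρ) ^ 2 * (d * A) := by
            refine mul_le_mul_of_nonneg_right ?_ (mul_nonneg hd0 hA0)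
            rw [div_pow]
            gcongr
            nlinarith

/-- If `|p x₀| ≤ ε² m`, `|p' x₀| ≤ ε m` and `|p'' x₀| ≥ m > 0`, and `p` has no multiple root,
then two distinct roots are within `4 N ε` of `x₀`. -/
theorem two_roots {p : ℂ[X]} (hp : p.roots.Nodup) {N : ℕ} (hN : p.natDegree ≤ N)
    {x₀ : ℂ} {ε m ρ : ℝ} (hε : 0 < ε) (hm : 0 < m) (hρ0 : 0 < ρ)
    (h0 : ‖p.eval x₀‖ ≤ ε ^ 2 * m) (h1 : ‖p.derivative.eval x₀‖ ≤ ε * m)
    (h2 : m ≤ ‖p.derivative.derivative.eval x₀‖) (hρ : 4 * N * ε ≤ ρ) :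
    ∃ a b : ℂ, a ≠ b ∧ p.eval a = 0 ∧ p.eval b = 0 ∧ ‖x₀ - a‖ < ρ ∧ ‖x₀ - b‖ < ρ := by
  classical
  have hp0 : p ≠ 0 := by
    rintro rfl
    simp at h2
    linarith
  have hprod := (IsAlgClosed.splits p).eq_prod_roots
  have hcard : p.roots.card ≤ N := (card_roots' p).trans hN
  set x : ℝ := N * ε / ρ with hx
  have hx0 : 0 ≤ x := by positivity
  have hx4 : x ≤ 1 / 4 := by
    rw [hx, div_le_iff₀ hρ0]
    linarith
  by_cases hall : ∀ a ∈ p.roots, ρ ≤ ‖x₀ - a‖
  · -- no root nearby
    exfalso
    obtain ⟨_, h4⟩ := far x₀ hρ0 p.leadingCoeff p.roots hall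
    rw [← hprod] at h4
    have h5 : (p.roots.card / ρ : ℝ) ≤ N / ρ := by gcongr
    have h6 : ((p.roots.card / ρ : ℝ)) ^ 2 * ‖p.eval x₀‖ ≤ (N / ρ) ^ 2 * (ε ^ 2 * m) := by
      gcongr
    have h7 : (N / ρ) ^ 2 * (ε ^ 2 * m) = x ^ 2 * m := by rw [hx]; ring
    have h8 : x ^ 2 ≤ 1 / 16 := by nlinarith
    nlinarith
  · push Not at hall
    obtain ⟨a, ha, hna⟩ := hall
    obtain ⟨t, ht⟩ := Multiset.exists_cons_of_mem ha
    have hnd : (a ::ₘ t).Nodup := ht ▸ hp
    by_cases hall2 : ∀ b ∈ t, ρ ≤ ‖x₀ - b‖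
    · -- only one root nearby
      exfalso
      obtain ⟨h3, h4⟩ := far x₀ hρ0 p.leadingCoeff t hall2
      have hq : p = (X - C a) * (C p.leadingCoeff * (t.map fun a => X - C a).prod) := by
        conv_lhs => rw [hprod]
        rw [ht, Multiset.map_cons, Multiset.prod_cons]
        ring
      set q : ℂ[X] := C p.leadingCoeff * (t.map fun a => X - C a).prod with hqdef
      have htc : (t.card : ℝ) ≤ N := by
        have : t.card + 1 ≤ N := by
          rw [← Multiset.card_cons a t, ← ht]
          exact hcard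
        exact_mod_cast (by omega : t.card ≤ N)
      have e0 : p.eval x₀ = (x₀ - a) * q.eval x₀ := by
        conv_lhs => rw [hq]
        simp
      have e1 : p.derivative.eval x₀ = q.eval x₀ + (x₀ - a) * q.derivative.eval x₀ := by
        conv_lhs => rw [hq]
        simp [derivative_mul]
      have e2 : p.derivative.derivative.eval x₀ =
          2 * q.derivative.eval x₀ + (x₀ - a) * q.derivative.derivative.eval x₀ := by
        conv_lhs => rw [hq]
        simp [derivative_mul]
        ring
      set A := ‖q.eval x₀‖ with hA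
      set B := ‖q.derivative.eval x₀‖ with hB
      set D := ‖q.derivative.derivative.eval x₀‖ with hD
      set d := ‖x₀ - a‖ with hd
      have hA0 : 0 ≤ A := norm_nonneg _
      have hd0 : 0 ≤ d := norm_nonneg _
      have hNρ : (t.card / ρ : ℝ) ≤ N / ρ := by gcongr
      have h3' : B ≤ N / ρ * A := h3.trans (by gcongr)
      have h4' : D ≤ (N / ρ) ^ 2 * A := h4.trans (by gcongr)
      have hdA : d * A ≤ ε ^ 2 * m := by
        rw [e0, norm_mul] at h0
        exact h0
      have hNρ0 : (0 : ℝ) ≤ N / ρ := by positivity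
      have hAle : A ≤ ε * m + N / ρ * (ε ^ 2 * m) := by
        have h5 : q.eval x₀ = p.derivative.eval x₀ - (x₀ - a) * q.derivative.eval x₀ := by
          rw [e1]; ring
        have h6 : A ≤ ‖p.derivative.eval x₀‖ + d * B := by
          rw [hA, h5]
          refine (norm_sub_le _ _).trans ?_
          rw [norm_mul]
        have h7 : d * B ≤ d * (N / ρ * A) := mul_le_mul_of_nonneg_left h3' hd0
        have h8 : d * (N / ρ * A) = N / ρ * (d * A) := by ring
        have h9 : N / ρ * (d * A) ≤ N / ρ * (ε ^ 2 * m) := mul_le_mul_of_nonneg_left hdA hNρ0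
        linarith
      have hfin : ‖p.derivative.derivative.eval x₀‖ ≤ 2 * B + d * D := by
        rw [e2]
        refine (norm_add_le _ _).trans ?_
        have h2n : ‖(2 : ℂ)‖ = 2 := by norm_num
        rw [norm_mul, norm_mul, h2n]
      have h10 : d * D ≤ (N / ρ) ^ 2 * (ε ^ 2 * m) := by
        calc d * D ≤ d * ((N / ρ) ^ 2 * A) := mul_le_mul_of_nonneg_left h4' hd0
          _ = (N / ρ) ^ 2 * (d * A) := by ring
          _ ≤ _ := mul_le_mul_of_nonneg_left hdA (by positivity)
      have h11 : B ≤ N / ρ * (ε * m + N / ρ * (ε ^ 2 * m)) :=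
        h3'.trans (mul_le_mul_of_nonneg_left hAle hNρ0)
      have h12 : N / ρ * (ε * m + N / ρ * (ε ^ 2 * m)) = (x + x ^ 2) * m := by rw [hx]; ring
      have h13 : (N / ρ) ^ 2 * (ε ^ 2 * m) = x ^ 2 * m := by rw [hx]; ring
      have h14 : m ≤ (2 * x + 3 * x ^ 2) * m := by
        rw [h12] at h11
        rw [h13] at h10
        nlinarith
      have h15 : 2 * x + 3 * x ^ 2 ≤ 11 / 16 := by nlinarith
      nlinarith
    · push Not at hall2
      obtain ⟨b, hb, hnb⟩ := hall2
      refine ⟨a, b, ?_, ?_, ?_, hna, hnb⟩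
      · rintro rfl
        exact (Multiset.nodup_cons.1 hnd).1 hb
      · exact (mem_roots hp0).1 ha
      · exact (mem_roots hp0).1 (ht ▸ Multiset.mem_cons_of_mem hb)

end Pool.Agent.Lib.MP_625f41_nt.H7
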