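import Pool.Agent.Lib.MP_625f41_nt.H7.Curve
import Pool.Agent.Lib.MP_625f41_nt.H7.Cluster

/-!
# Two close roots of `G_W` for small `W`
-/

open Polynomial

namespace Pool.Agent.Lib.MP_625f41_nt.H7

section Euler

variable {k : Type*} [Field k]

/-- The operator `X d/dX`. -/
noncomputable def D (p : k[X]) : k[X] := X * derivative p

lemma D_add (p q : k[X]) : D (p + q) = D p + D q := by simp only [D, derivative_add]; ring

lemma D_sub (p q : k[X]) : D (p - q) = D p - D q := by simp only [D, derivative_sub]; ring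

lemma D_term (a : k) (m : ℕ) (q : k[X]) :
    D (C a * (X ^ m * q)) = C a * (X ^ m * (C (m : k) * q + D q)) := by
  have h : (X : k[X]) * (C (m : k) * X ^ (m - 1)) = C (m : k) * X ^ m := by
    rcases m with _ | m
    · simp
    · rw [Nat.add_sub_cancel]; ring
  simp only [D, derivative_mul, derivative_C, zero_mul, zero_add, derivative_X_pow]
  linear_combination (C a * q) * h

lemma eval_D (p : k[X]) (z : k) : (D p).eval z = z * p.derivative.eval z := by
  simp [D]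

lemma eval_D_D (p : k[X]) (z : k) : (D (D p)).eval z =
    z * p.derivative.eval z + z ^ 2 * p.derivative.derivative.eval z := by
  simp [D, derivative_mul]
  ring

end Euler

/-- The approximate double root. -/
def zeta (V : ℝ) : ℝ := 125 + 3200 * V + 90240 * V ^ 2

/-- Cofactor. -/
def K0 (V : ℝ) : ℝ :=
    (-1342177280) +
    (7205116723200) * V +
    (80443083571200) * V ^ 2 +
    (1375884804096000) * V ^ 3 +
    (19840884277248000) * V ^ 4

/-- Cofactor. -/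
def K1 (s V : ℝ) : ℝ :=
    (-677664000) +
    (-4227878400 + 17348198400 * s) * V +
    (-34160282880 + 635847311360 * s) * V ^ 2 +
    (15316627046400 + 21236082278400 * s) * V ^ 3 +
    (240010042982400 + 319504523673600 * s) * V ^ 4 +
    (4127654412288000 + 4862501978112000 * s) * V ^ 5 +
    (59522652831744000 + 59522652831744000 * s) * V ^ 6

/-- Cofactor. -/
def K2 (s V : ℝ) : ℝ :=
    (-1593750 - 1600000 * s) +
    (-69506250 - 49600000 * s + 20480000 * s ^ 2) * V +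
    (-2704931250 - 1459200000 * s + 1265664000 * s ^ 2) * V ^ 2 +
    (-32782272000 + 43231526400 * s + 76691865600 * s ^ 2) * V ^ 3 +
    (-128544211200 + 2217374364160 * s + 2356677345280 * s ^ 2) * V ^ 4 +
    (18035807846400 + 80798397235200 * s + 62949711052800 * s ^ 2) * V ^ 5 +
    (477381670502400 + 1589607371980800 * s + 1114864116940800 * s ^ 2) * V ^ 6 +
    (8255308824576000 + 24312509890560000 * s + 16057201065984000 * s ^ 2) * V ^ 7 +
    (119045305663488000 + 297613264158720000 * s + 178567958495232000 * s ^ 2) * V ^ 8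

variable {s : ℕ} {V W : ℝ}

lemma G_zeta (h : W * zeta V ^ s = V) : (G s W).eval (zeta V) = V ^ 5 * K0 V := by
  rw [eval_G, h]
  simp only [gg, zeta, K0]
  ring

/-- The four levels of `G`. -/
lemma G_levels (s : ℕ) (W : ℝ) : G s W =
    C 1 * (X ^ 0 * ((X - C 125) ^ 2)) + C (-W) * (X ^ s * ((X - C 125) * (C 51 * X + C 25))) +
    C (-W ^ 2) * (X ^ (2 * s) * (X * (X + C 3) * (X - C 765))) +
    C (27 * W ^ 3) * (X ^ (3 * s) * (X * (X + C 3) ^ 2)) := by
  rw [G, C_neg, C_neg, C_1]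
  ring

lemma D_G_zeta (h : W * zeta V ^ s = V) : (D (G s W)).eval (zeta V) = V ^ 3 * K1 s V := by
  have h2 : W ^ 2 * zeta V ^ (2 * s) = V ^ 2 := by
    calc W ^ 2 * zeta V ^ (2 * s) = (W * zeta V ^ s) ^ 2 := by ring
      _ = V ^ 2 := by rw [h]
  have h3 : W ^ 3 * zeta V ^ (3 * s) = V ^ 3 := by
    calc W ^ 3 * zeta V ^ (3 * s) = (W * zeta V ^ s) ^ 3 := by ring
      _ = V ^ 3 := by rw [h]
  have e : (D (G s W)).eval (zeta V) =
      (2 * zeta V * (zeta V - 125)) -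
      (W * zeta V ^ s) * (s * ((zeta V - 125) * (51 * zeta V + 25)) +
        zeta V * (102 * zeta V - 6350)) -
      (W ^ 2 * zeta V ^ (2 * s)) * (2 * s * (zeta V * (zeta V + 3) * (zeta V - 765)) +
        zeta V * (3 * zeta V ^ 2 - 1524 * zeta V - 2295)) +
      27 * (W ^ 3 * zeta V ^ (3 * s)) * (3 * s * (zeta V * (zeta V + 3) ^ 2) +
        zeta V * (3 * zeta V ^ 2 + 12 * zeta V + 9)) := by
    rw [G_levels, D_add, D_add, D_add, D_term, D_term, D_term, D_term]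
    simp only [D, derivative_mul, derivative_pow, derivative_add, derivative_sub, derivative_X,
      derivative_C, eval_add, eval_sub, eval_mul, eval_pow, eval_X, eval_C, eval_zero, eval_one]
    push_cast
    ring
  rw [e, h, h2, h3]
  simp only [zeta, K1]
  ring

lemma D2_G_zeta (h : W * zeta V ^ s = V) :
    (D (D (G s W))).eval (zeta V) - (D (G s W)).eval (zeta V) = 2 * zeta V ^ 2 + V * K2 s V := by
  have h2 : W ^ 2 * zeta V ^ (2 * s) = V ^ 2 := by
    calc W ^ 2 * zeta V ^ (2 * s) = (W * zeta V ^ s) ^ 2 := by ring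
      _ = V ^ 2 := by rw [h]
  have h3 : W ^ 3 * zeta V ^ (3 * s) = V ^ 3 := by
    calc W ^ 3 * zeta V ^ (3 * s) = (W * zeta V ^ s) ^ 3 := by ring
      _ = V ^ 3 := by rw [h]
  have e : (D (D (G s W))).eval (zeta V) - (D (G s W)).eval (zeta V) =
      (2 * zeta V ^ 2) -
      (W * zeta V ^ s) * ((s ^ 2 - s) * ((zeta V - 125) * (51 * zeta V + 25)) +
        2 * s * (zeta V * (102 * zeta V - 6350)) + 102 * zeta V ^ 2) -
      (W ^ 2 * zeta V ^ (2 * s)) * ((4 * s ^ 2 - 2 * s) *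
        (zeta V * (zeta V + 3) * (zeta V - 765)) +
        4 * s * (zeta V * (3 * zeta V ^ 2 - 1524 * zeta V - 2295)) +
        zeta V ^ 2 * (6 * zeta V - 1524)) +
      27 * (W ^ 3 * zeta V ^ (3 * s)) * ((9 * s ^ 2 - 3 * s) * (zeta V * (zeta V + 3) ^ 2) +
        6 * s * (zeta V * (3 * zeta V ^ 2 + 12 * zeta V + 9)) +
        zeta V ^ 2 * (6 * zeta V + 12)) := by
    rw [G_levels]
    simp only [D_add, D_term]
    simp only [D, derivative_mul, derivative_pow, derivative_add, derivative_sub, derivative_X,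
      derivative_C, eval_add, eval_sub, eval_mul, eval_pow, eval_X, eval_C, eval_zero, eval_one,
      derivative_one, derivative_zero]
    push_cast
    ring
  rw [e, h, h2, h3]
  simp only [zeta, K2]
  ring

lemma zeta_ge (hV : 0 ≤ V) : 125 ≤ zeta V := by
  rw [zeta]; nlinarith [sq_nonneg V]

lemma zeta_mono {V V' : ℝ} (hV : 0 ≤ V) (h : V ≤ V') : zeta V ≤ zeta V' := by
  rw [zeta, zeta]
  have : V ^ 2 ≤ V' ^ 2 := by gcongr
  linarith

lemma continuous_zeta : Continuous zeta := by unfold zeta; fun_prop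

/-- The three estimates at the approximate double root. -/
theorem near (s : ℕ) : ∃ C : ℝ, 1 ≤ C ∧ ∃ δ : ℝ, 0 < δ ∧ δ ≤ 1 ∧ ∀ V : ℝ, 0 < V → V ≤ δ →
    ∀ W : ℝ, W * zeta V ^ s = V →
      |(G s W).eval (zeta V)| ≤ C * V ^ 5 ∧ |(G s W).derivative.eval (zeta V)| ≤ C * V ^ 3 ∧
        1 ≤ |(G s W).derivative.derivative.eval (zeta V)| := by
  obtain ⟨c0, hc0⟩ := (isCompact_Icc (a := (0 : ℝ)) (b := 1)).exists_bound_of_continuousOn
    (f := K0) (by unfold K0; fun_prop)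
  obtain ⟨c1, hc1⟩ := (isCompact_Icc (a := (0 : ℝ)) (b := 1)).exists_bound_of_continuousOn
    (f := K1 s) (by unfold K1; fun_prop)
  obtain ⟨c2, hc2⟩ := (isCompact_Icc (a := (0 : ℝ)) (b := 1)).exists_bound_of_continuousOn
    (f := K2 s) (by unfold K2; fun_prop)
  have p0 : 0 ≤ c0 := (norm_nonneg _).trans (hc0 0 (by norm_num))
  have p1 : 0 ≤ c1 := (norm_nonneg _).trans (hc1 0 (by norm_num))
  have p2 : 0 ≤ c2 := (norm_nonneg _).trans (hc2 0 (by norm_num))
  refine ⟨1 + c0 + c1, by linarith, 1 / (1 + c2), by positivity, ?_, ?_⟩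
  · rw [div_le_one (by linarith)]
    linarith
  intro V hV0 hVδ W hW
  have hV1 : V ≤ 1 := by
    refine hVδ.trans ?_
    rw [div_le_one (by linarith)]
    linarith
  have hVm : V ∈ Set.Icc (0 : ℝ) 1 := ⟨hV0.le, hV1⟩
  have hz := zeta_ge hV0.le
  have hzpos : 0 < zeta V := by linarith
  refine ⟨?_, ?_, ?_⟩
  · rw [G_zeta hW, abs_mul, abs_of_pos (pow_pos hV0 5), mul_comm]
    have h1 := hc0 V hVm
    rw [Real.norm_eq_abs] at h1
    have : |K0 V| ≤ 1 + c0 + c1 := by linarith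
    exact mul_le_mul_of_nonneg_right this (pow_pos hV0 5).le
  · have h1 := hc1 V hVm
    rw [Real.norm_eq_abs] at h1
    have h2 := D_G_zeta hW
    rw [eval_D] at h2
    have h3 : |zeta V| * |(G s W).derivative.eval (zeta V)| = |V ^ 3 * K1 s V| := by
      rw [← abs_mul, h2]
    rw [abs_mul, abs_of_pos (pow_pos hV0 3), abs_of_pos hzpos] at h3
    have h4 : V ^ 3 * |K1 s V| ≤ V ^ 3 * (1 + c0 + c1) := by
      have : |K1 s V| ≤ 1 + c0 + c1 := by linarith
      exact mul_le_mul_of_nonneg_left this (pow_pos hV0 3).le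
    have h5 := abs_nonneg ((G s W).derivative.eval (zeta V))
    nlinarith
  · have h1 := hc2 V hVm
    rw [Real.norm_eq_abs] at h1
    have h2 := D2_G_zeta hW
    rw [eval_D_D, eval_D] at h2
    have h3 : zeta V ^ 2 * (G s W).derivative.derivative.eval (zeta V) =
        2 * zeta V ^ 2 + V * K2 s V := by linarith
    have h4 : -(V * c2) ≤ V * K2 s V := by
      have := (abs_le.1 h1).1
      nlinarith
    have h5 : V * c2 ≤ 1 := by
      rw [le_div_iff₀ (by linarith)] at hVδ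
      nlinarith
    have h6 : 1 ≤ (G s W).derivative.derivative.eval (zeta V) := by
      by_contra hcon
      push Not at hcon
      have h7 : zeta V ^ 2 * (G s W).derivative.derivative.eval (zeta V) ≤ zeta V ^ 2 * 1 :=
        mul_le_mul_of_nonneg_left hcon.le (by positivity)
      nlinarith
    exact h6.trans (le_abs_self _)

lemma map_G (s : ℕ) (W : ℝ) : (G s W).map Complex.ofRealHom = G s (W : ℂ) := by
  simp [G]

lemma norm_eval_ofReal (p : ℝ[X]) (x : ℝ) :
    ‖(p.map Complex.ofRealHom).eval (x : ℂ)‖ = |p.eval x| := by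
  have : (p.map Complex.ofRealHom).eval (x : ℂ) = ((p.eval x : ℝ) : ℂ) := by
    rw [eval_map, ← Complex.ofRealHom_eq_coe x, eval₂_at_apply]
    rfl
  rw [this, Complex.norm_real, Real.norm_eq_abs]

/-- For small `w > 0` two roots of `G_{w²}` are at distance `O(w⁵)`. -/
theorem close_roots {s : ℕ} (hs : 1 ≤ s) : ∃ C : ℝ, 0 < C ∧ ∃ δ : ℝ, 0 < δ ∧ ∀ w : ℝ, 0 < w →
    w ≤ δ → (G s ((w ^ 2 : ℝ) : ℂ)).roots.Nodup → ∃ a b : ℂ, a ≠ b ∧
      (G s ((w ^ 2 : ℝ) : ℂ)).eval a = 0 ∧ (G s ((w ^ 2 : ℝ) : ℂ)).eval b = 0 ∧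
      ‖a - b‖ ≤ C * w ^ 5 ∧ ‖a‖ ≤ C ∧ ‖b‖ ≤ C := by
  obtain ⟨C, hC, δ, hδ0, hδ1, hnear⟩ := near s
  set L : ℝ := zeta 1 ^ s with hL
  have hz1 : 1 ≤ zeta 1 := by have := zeta_ge (V := 1) (by norm_num); linarith
  have hL1 : 1 ≤ L := one_le_pow₀ hz1
  set N : ℕ := 3 * s + 3 with hN
  have hN1 : (1 : ℝ) ≤ N := by rw [hN]; push_cast; nlinarith [(Nat.cast_nonneg s : (0 : ℝ) ≤ s)]
  set C1 : ℝ := C * L ^ 5 with hC1
  have hL5 : 1 ≤ L ^ 5 := one_le_pow₀ hL1
  have hC11 : 1 ≤ C1 := by nlinarith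
  refine ⟨zeta 1 + 8 * N * C1, by nlinarith, min 1 (δ / L),
    lt_min one_pos (div_pos hδ0 (by linarith)), ?_⟩
  intro w hw0 hwδ hnd
  have hw1 : w ≤ 1 := hwδ.trans (min_le_left _ _)
  have hwL : w ≤ δ / L := hwδ.trans (min_le_right _ _)
  have hW : w ^ 2 * L ≤ δ := by
    rw [le_div_iff₀ (by linarith)] at hwL
    nlinarith
  have hW0 : 0 < w ^ 2 := by positivity
  -- the point
  obtain ⟨V, hVm, hfV⟩ : (0 : ℝ) ∈ (fun V : ℝ => w ^ 2 * zeta V ^ s - V) '' Set.Icc 0 δ := by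
    refine intermediate_value_Icc' hδ0.le ?_ ⟨?_, ?_⟩
    · exact ((continuous_const.mul (continuous_zeta.pow s)).sub continuous_id).continuousOn
    · have : zeta δ ^ s ≤ L := by
        have h1 := zeta_mono hδ0.le hδ1
        have h2 := zeta_ge hδ0.le
        exact pow_le_pow_left₀ (by linarith) h1 s
      have h3 : w ^ 2 * zeta δ ^ s - δ ≤ 0 := by nlinarith
      exact h3
    · have : 0 < zeta 0 ^ s := pow_pos (by have := zeta_ge (V := 0) le_rfl; linarith) s
      have h3 : 0 ≤ w ^ 2 * zeta 0 ^ s - 0 := by rw [sub_zero]; positivity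
      exact h3
  have hWV : w ^ 2 * zeta V ^ s = V := by
    have h3 : w ^ 2 * zeta V ^ s - V = 0 := hfV
    linarith
  have hzV := zeta_ge hVm.1
  have hV0 : 0 < V := by
    rw [← hWV]
    have : 0 < zeta V := by linarith
    positivity
  have hV1 : V ≤ 1 := hVm.2.trans hδ1
  have hVL : V ≤ L * w ^ 2 := by
    have : zeta V ^ s ≤ L := pow_le_pow_left₀ (by linarith) (zeta_mono hV0.le hV1) s
    nlinarith
  obtain ⟨h0, h1, h2⟩ := hnear V hV0 hVm.2 (w ^ 2) hWV
  set ε : ℝ := C1 * w ^ 5 with hε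
  have hε0 : 0 < ε := by positivity
  set ρ : ℝ := 4 * N * ε with hρ
  have hρ0 : 0 < ρ := by positivity
  have b0 : C * V ^ 5 ≤ ε ^ 2 * 1 := by
    have e1 : V ^ 5 ≤ (L * w ^ 2) ^ 5 := pow_le_pow_left₀ hV0.le hVL 5
    have e2 : C * V ^ 5 ≤ C * (L * w ^ 2) ^ 5 := mul_le_mul_of_nonneg_left e1 (by linarith)
    have e3 : C * (L * w ^ 2) ^ 5 = C1 * w ^ 10 := by rw [hC1]; ring
    have e4 : ε ^ 2 * 1 = C1 ^ 2 * w ^ 10 := by rw [hε]; ring
    have e5 : C1 * w ^ 10 ≤ C1 ^ 2 * w ^ 10 :=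
      mul_le_mul_of_nonneg_right (by nlinarith) (by positivity)
    linarith
  have b1 : C * V ^ 3 ≤ ε * 1 := by
    have e1 : V ^ 3 ≤ (L * w ^ 2) ^ 3 := pow_le_pow_left₀ hV0.le hVL 3
    have e2 : C * V ^ 3 ≤ C * (L * w ^ 2) ^ 3 := mul_le_mul_of_nonneg_left e1 (by linarith)
    have e3 : C * (L * w ^ 2) ^ 3 = (C * L ^ 3) * (w ^ 5 * w) := by ring
    have e4 : L ^ 3 ≤ L ^ 5 := pow_le_pow_right₀ hL1 (by norm_num)
    have e5 : C * L ^ 3 ≤ C1 := mul_le_mul_of_nonneg_left e4 (by linarith)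
    have e6 : w ^ 5 * w ≤ w ^ 5 := by
      have : 0 < w ^ 5 := by positivity
      nlinarith
    have e7 : (C * L ^ 3) * (w ^ 5 * w) ≤ C1 * w ^ 5 := by
      have : 0 ≤ w ^ 5 * w := by positivity
      nlinarith
    rw [hε]
    linarith
  have hdeg : (G s ((w ^ 2 : ℝ) : ℂ)).natDegree ≤ N := by
    rw [natDegree_G hs (by exact_mod_cast hW0.ne')]
  rw [← map_G] at hnd hdeg ⊢
  obtain ⟨a, b, hab, ha, hb, hda, hdb⟩ := two_roots hnd hdeg (x₀ := (zeta V : ℂ)) hε0 one_pos hρ0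
    (by rw [norm_eval_ofReal]; exact h0.trans b0)
    (by rw [derivative_map, norm_eval_ofReal]; exact h1.trans b1)
    (by rw [derivative_map, derivative_map, norm_eval_ofReal]; exact h2) le_rfl
  have hρ1 : ρ ≤ 4 * N * C1 := by
    have : w ^ 5 ≤ 1 := pow_le_one₀ hw0.le hw1
    have : ε ≤ C1 := by rw [hε]; nlinarith
    rw [hρ]
    exact mul_le_mul_of_nonneg_left this (by positivity)
  have hx : ‖(zeta V : ℂ)‖ ≤ zeta 1 := by
    rw [Complex.norm_real, Real.norm_eq_abs, abs_of_pos (by linarith)]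
    exact zeta_mono hV0.le hV1
  refine ⟨a, b, hab, ha, hb, ?_, ?_, ?_⟩
  · calc ‖a - b‖ = ‖((zeta V : ℂ) - b) - ((zeta V : ℂ) - a)‖ := by congr 1; ring
      _ ≤ ‖(zeta V : ℂ) - b‖ + ‖(zeta V : ℂ) - a‖ := norm_sub_le _ _
      _ ≤ 2 * ρ := by linarith
      _ = (8 * N * C1) * w ^ 5 := by rw [hρ, hε]; ring
      _ ≤ (zeta 1 + 8 * N * C1) * w ^ 5 :=
          mul_le_mul_of_nonneg_right (by linarith) (by positivity)
  · calc ‖a‖ = ‖(zeta V : ℂ) - ((zeta V : ℂ) - a)‖ := by congr 1; ring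
      _ ≤ ‖(zeta V : ℂ)‖ + ‖(zeta V : ℂ) - a‖ := norm_sub_le _ _
      _ ≤ _ := by nlinarith
  · calc ‖b‖ = ‖(zeta V : ℂ) - ((zeta V : ℂ) - b)‖ := by congr 1; ring
      _ ≤ ‖(zeta V : ℂ)‖ + ‖(zeta V : ℂ) - b‖ := norm_sub_le _ _
      _ ≤ _ := by nlinarith

end Pool.Agent.Lib.MP_625f41_nt.H7
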