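import Pool.Agent.Lib.MP_625f41_nt.H7.Fam
import Pool.Agent.Lib.MP_625f41_nt.H7.Near

/-!
# The exponent `2 m - 1/5` in degree `3 m`
-/

open Polynomial Filter

namespace Pool.Agent.Lib.MP_625f41_nt.H7

/-- `√19` as a real number. -/
noncomputable def rho : ℝ := Real.sqrt 19

lemma rho_sq : rho * rho = 19 := Real.mul_self_sqrt (by norm_num)

lemma rho_pos : 0 < rho := Real.sqrt_pos.2 (by norm_num)

lemma rho_gt : 4 < rho := by
  by_contra h
  push Not at h
  nlinarith [rho_sq, rho_pos]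

lemma rho_lt : rho < 9 / 2 := by
  by_contra h
  push Not at h
  nlinarith [rho_sq, rho_pos]

/-- The real embedding of `ℤ[√19]`. -/
noncomputable def fR : A →+* ℝ := Zsqrtd.lift ⟨rho, by rw [rho_sq]; norm_num⟩

lemma fR_apply (x : A) : fR x = x.re + x.im * rho := rfl

/-- The complex embedding of `ℤ[√19]`. -/
noncomputable def fC : A →+* ℂ := Complex.ofRealHom.comp fR

lemma fC_apply (x : A) : fC x = ((fR x : ℝ) : ℂ) := rfl

/-- The size of the unit. -/
noncomputable def UU (j : ℕ) : ℝ := (170 + 39 * rho) ^ j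

lemma fR_eps (j : ℕ) : fR (eps ^ j) = UU j := by
  rw [map_pow, UU, fR_apply]; simp [eps]

lemma one_le_UU (j : ℕ) : 1 ≤ UU j := one_le_pow₀ (by have := rho_pos; linarith)

lemma UU_pos (j : ℕ) : 0 < UU j := lt_of_lt_of_le one_pos (one_le_UU j)

lemma fR_eps' (j : ℕ) : fR (star eps ^ j) = (UU j)⁻¹ := by
  have h := phi_eps fR j
  rw [fR_eps] at h
  exact eq_inv_of_mul_eq_one_right h

lemma tendsto_UU : Tendsto UU atTop atTop :=
  tendsto_pow_atTop_atTop_of_one_lt (by have := rho_pos; linarith)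

lemma fR_p3 : fR p3 = 4 + rho := by rw [fR_apply]; simp [p3]

lemma fR_p3' : fR (star p3) = 4 - rho := by rw [fR_apply]; simp [p3]; ring

lemma fR_p5 : fR p5 = 9 + 2 * rho := by rw [fR_apply]; simp [p5]

lemma fR_p5' : fR (star p5) = 9 - 2 * rho := by rw [fR_apply]; simp [p5]; ring

lemma fR_rt : fR rt = rho := by rw [fR_apply]; simp [rt]

/-- Constant. -/
noncomputable def t0 : ℝ := (4 + rho) * (9 + 2 * rho) ^ 3

lemma t0_pos : 0 < t0 := by have := rho_pos; unfold t0; positivity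

lemma tau_fR (j : ℕ) : tau fR j = t0 * UU j ^ 4 := by
  rw [tau, fR_p3, fR_p5, fR_eps, t0]

/-- Constant. -/
noncomputable def c0 : ℝ := (rho - 4) * (9 + 2 * rho) ^ 2 / (9 * (9 - 2 * rho))

lemma c0_pos : 0 < c0 := by
  have h1 := rho_gt
  have h2 := rho_lt
  have h3 : 0 < rho - 4 := by linarith
  have h4 : 0 < 9 - 2 * rho := by linarith
  unfold c0
  positivity

lemma ww_fR (j : ℕ) : ww fR j = c0 / UU j ^ 2 := by
  have h2 := rho_lt
  have h4 : 9 - 2 * rho ≠ 0 := by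
    intro h
    linarith
  have := (UU_pos j).ne'
  rw [ww, fR_p3', fR_p5, fR_eps', fR_p5', c0]
  field_simp
  ring

/-- The square root of `W_j`. -/
noncomputable def wj (s j : ℕ) : ℝ := Real.sqrt (c0 / t0 ^ s) / UU j ^ (2 * s + 1)

lemma wj_pos (s j : ℕ) : 0 < wj s j :=
  div_pos (Real.sqrt_pos.2 (div_pos c0_pos (pow_pos t0_pos s))) (pow_pos (UU_pos j) _)

lemma WW_fR (s j : ℕ) : WW fR s j = wj s j ^ 2 := by
  have h1 := t0_pos.ne'
  have h2 := (UU_pos j).ne'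
  rw [WW, ww_fR, tau_fR, wj, div_pow, Real.sq_sqrt (div_pos c0_pos (pow_pos t0_pos s)).le]
  field_simp
  ring

lemma tau_fC (j : ℕ) : tau fC j = ((tau fR j : ℝ) : ℂ) := by
  simp only [tau, fC_apply]
  push_cast
  rfl

lemma ww_fC (j : ℕ) : ww fC j = ((ww fR j : ℝ) : ℂ) := by
  simp only [ww, fC_apply]
  push_cast
  rfl

lemma WW_fC (s j : ℕ) : WW fC s j = ((wj s j ^ 2 : ℝ) : ℂ) := by
  rw [← WW_fR, WW, WW, ww_fC, tau_fC]
  push_cast
  rfl

/-- Constant. -/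
def W0 {k : Type*} [Field k] (φ : A →+* k) (s : ℕ) : k :=
  (-φ (star p3) * φ p5 ^ 2 / (9 * φ (star p5))) / (φ p3 * φ p5 ^ 3) ^ s

lemma WW_mul {k : Type*} [Field k] [CharZero k] (φ : A →+* k) (s j : ℕ) :
    WW φ s j * φ (eps ^ j) ^ (4 * s + 2) = W0 φ s := by
  have h1 := phi_p3_ne φ
  have h2 := phi_p5_ne φ
  have h3 := phi_p5'_ne φ
  have h4 := phi_eps_ne φ j
  have h5 : φ (star eps ^ j) = 1 / φ (eps ^ j) := by
    field_simp
    rw [mul_comm]
    exact phi_eps φ j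
  rw [WW, W0, ww, tau, h5]
  field_simp
  ring

lemma W0_ne {k : Type*} [Field k] [CharZero k] (φ : A →+* k) (s : ℕ) : W0 φ s ≠ 0 := by
  rw [W0]
  exact div_ne_zero (div_ne_zero (mul_ne_zero (neg_ne_zero.2 (phi_p3'_ne φ))
    (pow_ne_zero _ (phi_p5_ne φ))) (mul_ne_zero (by norm_num) (phi_p5'_ne φ)))
    (pow_ne_zero _ (mul_ne_zero (phi_p3_ne φ) (pow_ne_zero _ (phi_p5_ne φ))))

lemma WW_injective {k : Type*} [Field k] [CharZero k] (φ : A →+* k) (s : ℕ) :
    Function.Injective (WW φ s) := by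
  have key : ∀ i j, i < j → WW φ s i = WW φ s j → False := by
    intro i j hij h
    have h1 := WW_mul φ s i
    have h2 := WW_mul φ s j
    rw [← h, ← h1] at h2
    have h3 := mul_left_cancel₀ (WW_ne φ s i) h2
    have h4 : φ ((eps ^ j) ^ (4 * s + 2)) = φ ((eps ^ i) ^ (4 * s + 2)) := by
      rw [map_pow φ (eps ^ j), map_pow φ (eps ^ i), h3]
    have h5 := congrArg fR (phi_injective φ h4)
    rw [map_pow fR (eps ^ j), map_pow fR (eps ^ i), fR_eps, fR_eps] at h5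
    have h6 : UU i < UU j :=
      pow_lt_pow_right₀ (by have := rho_pos; linarith) hij
    have h7 := pow_lt_pow_left₀ h6 (UU_pos i).le (n := 4 * s + 2) (by omega)
    linarith
  intro i j h
  rcases lt_trichotomy i j with hij | hij | hij
  · exact (key i j hij h).elim
  · exact hij
  · exact (key j i hij h.symm).elim

/-- For all large `j` the parameter `W_j` is good. -/
lemma eventually_good {k : Type*} [Field k] [CharZero k] (φ : A →+* k)
    (s : ℕ) : ∀ᶠ j in atTop, (E s (WW φ s j)).roots.Nodup := by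
  have h1 := (finite_bad_E k s).preimage (WW_injective φ s).injOn
  have h2 := h1.compl_mem_cofinite
  rw [Nat.cofinite_eq_atTop] at h2
  filter_upwards [h2] with j hj
  by_contra hcon
  exact hj hcon

lemma Nm_const_mul {x v : A} {c : ℝ} (h : Nm fR v ≤ c) : Nm fR (x * v) ≤ Nm fR x * c :=
  (Nm_mul fR x v).trans (mul_le_mul_of_nonneg_left h (Nm_nonneg fR x))

lemma Nm_eps (j m : ℕ) (hm : m ≤ 5) : Nm fR ((eps ^ j) ^ m) ≤ 2 * UU j ^ 5 := by
  have h1 := one_le_UU j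
  have h0 := UU_pos j
  have e1 : fR ((eps ^ j) ^ m) = UU j ^ m := by rw [map_pow fR (eps ^ j), fR_eps]
  have e2 : fR (star ((eps ^ j) ^ m)) = (UU j)⁻¹ ^ m := by
    rw [star_pow, star_pow, map_pow fR (star eps ^ j), fR_eps']
  rw [Nm, e1, e2, abs_of_pos (pow_pos h0 m), abs_of_pos (pow_pos (inv_pos.2 h0) m)]
  have h2 : UU j ^ m ≤ UU j ^ 5 := pow_le_pow_right₀ h1 hm
  have h3 : (UU j)⁻¹ ^ m ≤ 1 := pow_le_one₀ (inv_pos.2 h0).le (inv_le_one_of_one_le₀ h1)
  have h4 : 1 ≤ UU j ^ 5 := one_le_pow₀ h1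
  linarith

lemma Nm_eps' (j m : ℕ) (hm : m ≤ 5) : Nm fR ((star eps ^ j) ^ m) ≤ 2 * UU j ^ 5 := by
  have h := Nm_eps j m hm
  have h1 : (star eps ^ j) ^ m = star ((eps ^ j) ^ m) := by rw [star_pow, star_pow]
  rw [h1]
  unfold Nm at h ⊢
  rw [star_star]
  linarith

lemma Nm_cc : ∃ B : ℝ, 0 ≤ B ∧ ∀ j k, Nm fR (cc j k) ≤ B * UU j ^ 5 := by
  refine ⟨Nm fR (9 * star p5 ^ 3 * p3 ^ 2) * 2 + Nm fR ((-18) * p3 * star p5 ^ 6) * 2 +
    Nm fR (9 * star p5 ^ 9) * 2 + Nm fR ((-3825) * p3) * 2 + Nm fR (3810 * star p5 ^ 3) * 2 +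
    Nm fR ((-5) * star p3 * star p5 ^ 6) * 2, ?_, ?_⟩
  · have h1 := Nm_nonneg fR (9 * star p5 ^ 3 * p3 ^ 2)
    have h2 := Nm_nonneg fR ((-18) * p3 * star p5 ^ 6)
    have h3 := Nm_nonneg fR (9 * star p5 ^ 9)
    have h4 := Nm_nonneg fR ((-3825) * p3)
    have h5 := Nm_nonneg fR (3810 * star p5 ^ 3)
    have h6 := Nm_nonneg fR ((-5) * star p3 * star p5 ^ 6)
    positivity
  intro j k
  have h1 := mul_nonneg (Nm_nonneg fR (9 * star p5 ^ 3 * p3 ^ 2)) (pow_pos (UU_pos j) 5).le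
  have h2 := mul_nonneg (Nm_nonneg fR ((-18) * p3 * star p5 ^ 6)) (pow_pos (UU_pos j) 5).le
  have h3 := mul_nonneg (Nm_nonneg fR (9 * star p5 ^ 9)) (pow_pos (UU_pos j) 5).le
  have h4 := mul_nonneg (Nm_nonneg fR ((-3825) * p3)) (pow_pos (UU_pos j) 5).le
  have h5 := mul_nonneg (Nm_nonneg fR (3810 * star p5 ^ 3)) (pow_pos (UU_pos j) 5).le
  have h6 := mul_nonneg (Nm_nonneg fR ((-5) * star p3 * star p5 ^ 6)) (pow_pos (UU_pos j) 5).le
  fin_cases k
  · have := Nm_const_mul (x := 9 * star p5 ^ 3 * p3 ^ 2) (Nm_eps j 5 (by norm_num))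
    show Nm fR (9 * star p5 ^ 3 * p3 ^ 2 * (eps ^ j) ^ 5) ≤ _
    nlinarith
  · have := Nm_const_mul (x := (-18) * p3 * star p5 ^ 6) (Nm_eps j 1 (by norm_num))
    rw [pow_one] at this
    show Nm fR ((-18) * p3 * star p5 ^ 6 * eps ^ j) ≤ _
    nlinarith
  · have := Nm_const_mul (x := 9 * star p5 ^ 9) (Nm_eps' j 3 (by norm_num))
    show Nm fR (9 * star p5 ^ 9 * (star eps ^ j) ^ 3) ≤ _
    nlinarith
  · have := Nm_const_mul (x := (-3825) * p3) (Nm_eps j 3 (by norm_num))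
    show Nm fR ((-3825) * p3 * (eps ^ j) ^ 3) ≤ _
    nlinarith
  · have := Nm_const_mul (x := 3810 * star p5 ^ 3) (Nm_eps' j 1 (by norm_num))
    rw [pow_one] at this
    show Nm fR (3810 * star p5 ^ 3 * star eps ^ j) ≤ _
    nlinarith
  · have := Nm_const_mul (x := (-5) * star p3 * star p5 ^ 6) (Nm_eps' j 5 (by norm_num))
    show Nm fR ((-5) * star p3 * star p5 ^ 6 * (star eps ^ j) ^ 5) ≤ _
    nlinarith

/-- The heights of the family. -/
lemma height_PP (s : ℕ) : ∃ M : ℝ, 1 ≤ M ∧ ∀ j i, |((PP s j).coeff i : ℝ)| ≤ M * UU j ^ 5 := by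
  obtain ⟨M, hM, h⟩ := height_bound fR (ee s)
  obtain ⟨B, hB, h'⟩ := Nm_cc
  refine ⟨M * (1 + B), by nlinarith, fun j i => ?_⟩
  have h0 := pow_pos (UU_pos j) 5
  have h1 := h (cc j) (B * UU j ^ 5) (by positivity) (h' j) i
  refine h1.trans ?_
  have : 0 ≤ M * UU j ^ 5 := by positivity
  nlinarith

/-- The separations of the family. -/
theorem sep_PP {s : ℕ} (hs : 1 ≤ s) : ∃ C : ℝ, 0 ≤ C ∧ ∀ᶠ j in atTop,
    sep (PP s j) ≤ C / UU j ^ (10 * s + 9) := by
  obtain ⟨C, hC, δ, hδ, hclose⟩ := close_roots hs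
  set κ : ℝ := Real.sqrt (c0 / t0 ^ s) with hκ
  have hκ0 : 0 < κ := Real.sqrt_pos.2 (div_pos c0_pos (pow_pos t0_pos s))
  refine ⟨8 * rho * C * κ ^ 5 / t0, by have := rho_pos; have := t0_pos; positivity, ?_⟩
  have hgood := eventually_good fC s
  have hw : ∀ᶠ j in atTop, wj s j ≤ δ := by
    have h1 : Tendsto (wj s) atTop (nhds 0) := by
      unfold wj
      exact Tendsto.const_div_atTop
        ((tendsto_pow_atTop (by omega : 2 * s + 1 ≠ 0)).comp tendsto_UU) _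
    exact h1.eventually_le_const hδ
  have ht : ∀ᶠ j in atTop, 2 * C ≤ tau fR j := by
    have h1 : Tendsto (tau fR) atTop atTop := by
      have : tau fR = fun j => t0 * UU j ^ 4 := funext tau_fR
      rw [this]
      exact Tendsto.const_mul_atTop t0_pos
        ((tendsto_pow_atTop (by norm_num : (4 : ℕ) ≠ 0)).comp tendsto_UU)
    exact h1.eventually_ge_atTop _
  filter_upwards [hgood, hw, ht] with j h1 h2 h3
  have hG := nodup_G hs (WW_ne fC s j) h1
  rw [WW_fC] at hG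
  obtain ⟨a, b, hab, ha, hb, hd, hCa, hCb⟩ := hclose (wj s j) (wj_pos s j) h2 hG
  rw [← WW_fC] at ha hb
  have hta := tau_sub_ne fC ha
  have htb := tau_sub_ne fC hb
  have hxa := eval_xz fC ha
  have hxb := eval_xz fC hb
  have hne : xz fC j a ≠ xz fC j b := by
    intro h
    apply hab
    rw [← xz_inv fC hta, h, xz_inv fC htb]
  have hev : ∀ x : ℂ, ((PP s j).map (Int.castRingHom ℂ)).eval x = 0 → aeval x (PP s j) = 0 := by
    intro x hx
    rw [aeval_def, ← hx, eval_map]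
    rfl
  refine (sep_le_dist hne (hev _ hxa) (hev _ hxb)).trans ?_
  have hτ0 : 0 < tau fR j := by linarith
  have hτn : ‖tau fC j‖ = tau fR j := by
    rw [tau_fC, Complex.norm_real, Real.norm_eq_abs, abs_of_pos hτ0]
  have hdiff : xz fC j a - xz fC j b =
      2 * fC rt * tau fC j * (a - b) / ((tau fC j - a) * (tau fC j - b)) := by
    rw [xz, xz]
    field_simp
    ring
  have hna : tau fR j / 2 ≤ ‖tau fC j - a‖ := by
    have := norm_sub_norm_le (tau fC j) a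
    rw [hτn] at this
    linarith
  have hnb : tau fR j / 2 ≤ ‖tau fC j - b‖ := by
    have := norm_sub_norm_le (tau fC j) b
    rw [hτn] at this
    linarith
  have hrt : ‖fC rt‖ = rho := by
    rw [fC_apply, fR_rt, Complex.norm_real, Real.norm_eq_abs, abs_of_pos rho_pos]
  have h2n : ‖(2 : ℂ)‖ = 2 := by norm_num
  rw [dist_eq_norm, hdiff, norm_div, norm_mul, norm_mul, norm_mul, norm_mul, hτn, hrt, h2n]
  have hprod : (tau fR j / 2) * (tau fR j / 2) ≤ ‖tau fC j - a‖ * ‖tau fC j - b‖ :=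
    mul_le_mul hna hnb (by linarith) (norm_nonneg _)
  have hρ := rho_pos
  have hU := UU_pos j
  have hwp := wj_pos s j
  calc 2 * rho * tau fR j * ‖a - b‖ / (‖tau fC j - a‖ * ‖tau fC j - b‖)
      ≤ 2 * rho * tau fR j * (C * wj s j ^ 5) / ((tau fR j / 2) * (tau fR j / 2)) := by
        gcongr
    _ = 8 * rho * C * wj s j ^ 5 / tau fR j := by field_simp; ring
    _ = 8 * rho * C * κ ^ 5 / t0 / UU j ^ (10 * s + 9) := by
        have := t0_pos.ne'
        rw [tau_fR, wj, ← hκ]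
        field_simp
        ring

/-- A class which contains almost all members of the family has exponent at least
`(10 s + 9) / 5` in degree `3 s + 3`. -/
theorem exponent_of {s : ℕ} (hs : 1 ≤ s) {𝒞 : ℤ[X] → Prop} (h𝒞 : ∀ P, 𝒞 P → HasDistinctRoots P)
    (h : ∀ᶠ j in atTop, 𝒞 (PP s j)) :
    (((10 * s + 9 : ℕ) : ℝ) / ((5 : ℕ) : ℝ) : ℝ) ≤ sepExponent 𝒞 (3 * s + 3) := by
  obtain ⟨M, hM, hM'⟩ := height_PP s
  obtain ⟨C, hC, hC'⟩ := sep_PP hs
  refine le_of_family h𝒞 (by omega) (PP s) UU tendsto_UU 5 (10 * s + 9) (by norm_num) M C hM hC ?_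
  filter_upwards [h, hC'] with j h1 h2
  exact ⟨natDegree_PP s j, h1, hM' j, h2⟩

/-- The exponent in degree `3 s + 3`. -/
theorem e_family {s : ℕ} (hs : 1 ≤ s) :
    (((10 * s + 9 : ℕ) : ℝ) / ((5 : ℕ) : ℝ) : ℝ) ≤ e (3 * s + 3) := by
  refine exponent_of hs (fun P h => h) ?_
  filter_upwards [eventually_good fC s] with j hj
  exact nodup_PP fC hs hj

end Pool.Agent.Lib.MP_625f41_nt.H7
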