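import Mathlib

/-!
# The rational curve behind the family of degree `3 s + 3`
-/

open Polynomial

namespace Pool.Agent.Lib.MP_625f41_nt.H7

section Pencil

variable {k : Type*} [Field k] [CharZero k]

/-- Only finitely many members of a pencil `A - W B` have a multiple root. -/
lemma finite_bad {A B : k[X]} (hc : IsCoprime A B) (hB : B.natDegree ≠ 0) :
    {W : k | ¬ (A - C W * B).roots.Nodup}.Finite := by
  classical
  have hw : wronskian A B ≠ 0 := by
    intro h
    have h1 := (hc.wronskian_eq_zero_iff.1 h).2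
    exact hB (derivative_eq_zero.1 h1)
  refine ((wronskian A B).roots.toFinset.finite_toSet.image
    fun y => A.eval y / B.eval y).subset ?_
  intro W hW
  rw [Set.mem_ofPred_eq, Multiset.nodup_iff_count_le_one] at hW
  push Not at hW
  obtain ⟨y, hy⟩ := hW
  have hp0 : A - C W * B ≠ 0 := by
    intro h
    rw [h] at hy
    simp at hy
  rw [count_roots, one_lt_rootMultiplicity_iff_isRoot hp0] at hy
  obtain ⟨h1, h2⟩ := hy
  have h1' : A.eval y = W * B.eval y := by
    have : (A - C W * B).eval y = 0 := h1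
    simp only [eval_sub, eval_mul, eval_C] at this
    linear_combination this
  have h2' : A.derivative.eval y = W * B.derivative.eval y := by
    have : (A - C W * B).derivative.eval y = 0 := h2
    simp only [derivative_sub, derivative_mul, derivative_C, zero_mul, zero_add, eval_sub,
      eval_mul, eval_C] at this
    linear_combination this
  have hBy : B.eval y ≠ 0 := by
    intro hBy
    obtain ⟨a, b, hab⟩ := hc
    have := congrArg (eval y) hab
    rw [eval_add, eval_mul, eval_mul, h1', hBy, eval_one] at this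
    simp at this
  refine ⟨y, ?_, ?_⟩
  · simp only [Finset.mem_coe, Multiset.mem_toFinset]
    rw [mem_roots hw, IsRoot.def, wronskian, eval_sub, eval_mul, eval_mul, h1', h2']
    ring
  · simp only
    rw [h1']
    field_simp

end Pencil

section Curve

variable {k : Type*} [Field k]

/-- The polynomial whose roots are studied: `G_W(Z) = g(Z, W Z^s)`. -/
noncomputable def G (s : ℕ) (W : k) : k[X] :=
  (X - C 125) ^ 2 - C W * (X ^ s * ((X - C 125) * (C 51 * X + C 25))) -
    C (W ^ 2) * (X ^ (2 * s) * (X * (X + C 3) * (X - C 765))) +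
    C (27 * W ^ 3) * (X ^ (3 * s) * (X * (X + C 3) ^ 2))

/-- The same roots in the rational parameter `Y`. -/
noncomputable def EA (k : Type*) [Field k] (s : ℕ) : k[X] := (X - C 5) ^ 2 * (X - C 3) ^ s

/-- The same roots in the rational parameter `Y`. -/
noncomputable def EB (k : Type*) [Field k] (s : ℕ) : k[X] :=
  X ^ (2 * s + 1) * (X - C (-5)) ^ s * (X - C (-3)) ^ 2

/-- The same roots in the rational parameter `Y`. -/
noncomputable def E (s : ℕ) (W : k) : k[X] := EA k s - C W * EB k s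

/-- The equation of the curve. -/
def gg (Z V : k) : k :=
  (Z - 125) ^ 2 - V * ((Z - 125) * (51 * Z + 25)) - V ^ 2 * (Z * (Z + 3) * (Z - 765)) +
    27 * V ^ 3 * (Z * (Z + 3) ^ 2)

lemma eval_G (s : ℕ) (W Z : k) : (G s W).eval Z = gg Z (W * Z ^ s) := by
  simp only [G, gg, eval_add, eval_sub, eval_mul, eval_pow, eval_X, eval_C]
  ring

lemma eval_E (s : ℕ) (W Y : k) : (E s W).eval Y =
    (Y - 5) ^ 2 * (Y - 3) ^ s - W * (Y ^ (2 * s + 1) * (Y + 5) ^ s * (Y + 3) ^ 2) := by
  simp only [E, EA, EB, eval_sub, eval_mul, eval_pow, eval_X, eval_C, sub_neg_eq_add]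

variable [CharZero k]

lemma coprime_EA_EB (s : ℕ) : IsCoprime (EA k s) (EB k s) := by
  have h : ∀ a b : k, a ≠ b → IsCoprime (X - C a) (X - C b) := fun a b hab =>
    isCoprime_X_sub_C_of_isUnit_sub (sub_ne_zero_of_ne hab).isUnit
  have hX : ∀ a : k, a ≠ 0 → IsCoprime (X - C a) X := fun a ha => by
    have := h a 0 ha
    rwa [C_0, sub_zero] at this
  have n5 : (5 : k) ≠ 0 := by norm_num
  have n3 : (3 : k) ≠ 0 := by norm_num
  rw [EA, EB]
  refine IsCoprime.mul_left ?_ ?_
  · refine IsCoprime.mul_right (IsCoprime.mul_right ?_ ?_) ?_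
    · exact (hX _ n5).pow
    · exact (h _ _ (by norm_num)).pow
    · exact (h _ _ (by norm_num)).pow
  · refine IsCoprime.mul_right (IsCoprime.mul_right ?_ ?_) ?_
    · exact (hX _ n3).pow
    · exact (h _ _ (by norm_num)).pow
    · exact (h _ _ (by norm_num)).pow

lemma monic_EB (s : ℕ) : (EB k s).Monic := by
  rw [EB]
  exact ((monic_X_pow _).mul ((monic_X_sub_C _).pow _)).mul ((monic_X_sub_C _).pow _)

lemma natDegree_EB (s : ℕ) : (EB k s).natDegree = 3 * s + 3 := by
  rw [EB, Monic.natDegree_mul ((monic_X_pow _).mul ((monic_X_sub_C _).pow _))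
    ((monic_X_sub_C _).pow _), Monic.natDegree_mul (monic_X_pow _) ((monic_X_sub_C _).pow _),
    natDegree_X_pow, (monic_X_sub_C _).natDegree_pow, (monic_X_sub_C _).natDegree_pow,
    natDegree_X_sub_C, natDegree_X_sub_C]
  ring

lemma natDegree_EA (s : ℕ) : (EA k s).natDegree = s + 2 := by
  rw [EA, Monic.natDegree_mul ((monic_X_sub_C _).pow _) ((monic_X_sub_C _).pow _),
    (monic_X_sub_C _).natDegree_pow, (monic_X_sub_C _).natDegree_pow,
    natDegree_X_sub_C, natDegree_X_sub_C]
  ring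

lemma natDegree_E (s : ℕ) {W : k} (hW : W ≠ 0) : (E s W).natDegree = 3 * s + 3 := by
  rw [E, natDegree_sub_eq_right_of_natDegree_lt]
  · rw [natDegree_C_mul hW, natDegree_EB]
  · rw [natDegree_C_mul hW, natDegree_EB, natDegree_EA]
    omega

/-- For almost all `W`, the polynomial in the parameter has no multiple root. -/
lemma finite_bad_E (k : Type*) [Field k] [CharZero k] (s : ℕ) :
    {W : k | ¬ (E s W).roots.Nodup}.Finite :=
  finite_bad (coprime_EA_EB s) (by rw [natDegree_EB]; omega)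

/-- `Z` as a function of the parameter. -/
def ZY (Y : k) : k := Y ^ 2 * (Y + 5) / (Y - 3)

/-- `V` as a function of the parameter. -/
def VY (Y : k) : k := (Y - 5) ^ 2 / (Y * (Y + 3) ^ 2)

lemma gg_param {Y : k} (h0 : Y ≠ 0) (h3 : Y - 3 ≠ 0) (h3' : Y + 3 ≠ 0) : gg (ZY Y) (VY Y) = 0 := by
  rw [gg, ZY, VY]
  field_simp
  ring

/-- The parametrisation is injective. -/
lemma param_inj {Y Y' : k} (h0 : Y ≠ 0) (h3 : Y - 3 ≠ 0) (h3' : Y + 3 ≠ 0)
    (k0 : Y' ≠ 0) (k3 : Y' - 3 ≠ 0) (k3' : Y' + 3 ≠ 0) (hZ : ZY Y = ZY Y') (hV : VY Y = VY Y') :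
    Y = Y' := by
  by_contra hne
  have hne' : Y - Y' ≠ 0 := sub_ne_zero_of_ne hne
  rw [ZY, ZY, div_eq_div_iff h3 k3] at hZ
  rw [VY, VY, div_eq_div_iff (mul_ne_zero h0 (pow_ne_zero 2 h3'))
    (mul_ne_zero k0 (pow_ne_zero 2 k3'))] at hV
  have n1 : (Y * Y') * (Y + Y' + 8) - 3 * (Y + Y') * (Y + Y' + 5) = 0 := by
    apply mul_left_cancel₀ hne'
    rw [mul_zero]
    linear_combination hZ
  have n2 : -(Y * Y') ^ 2 + 10 * (Y * Y') * (Y + Y') + 94 * (Y * Y') - 25 * (Y + Y') ^ 2
      - 150 * (Y + Y') - 225 = 0 := by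
    apply mul_left_cancel₀ hne'
    rw [mul_zero]
    linear_combination hV
  set σ := Y + Y' with hσ
  set π := Y * Y' with hπ
  have hd : (Y - Y') ^ 2 = σ ^ 2 - 4 * π := by rw [hσ, hπ]; ring
  have key : (σ - 10) ^ 2 * (σ + 6) ^ 2 = 0 := by
    linear_combination (-(1 / 4)) * ((σ + 8) ^ 2 * n2 -
      (-(π * (σ + 8) + 3 * σ * (σ + 5)) + (10 * σ + 94) * (σ + 8)) * n1)
  have hcon : (Y - Y') ^ 2 = 0 := by
    rcases mul_eq_zero.1 key with h | h
    · have h' : σ = 10 := by
        have := pow_eq_zero_iff (two_ne_zero) |>.1 h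
        linear_combination this
      rw [h'] at n1 hd
      rw [hd]
      linear_combination (-(2 / 9)) * n1
    · have h' : σ = -6 := by
        have := pow_eq_zero_iff (two_ne_zero) |>.1 h
        linear_combination this
      rw [h'] at n1 hd
      rw [hd]
      linear_combination (-2) * n1
  exact hne' (pow_eq_zero_iff (two_ne_zero) |>.1 hcon)

lemma root_E_ne {s : ℕ} (hs : 1 ≤ s) {W Y : k} (hW : W ≠ 0) (h : (E s W).eval Y = 0) :
    Y ≠ 0 ∧ Y - 3 ≠ 0 ∧ Y + 3 ≠ 0 := by
  rw [eval_E] at h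
  refine ⟨?_, ?_, ?_⟩
  · rintro rfl
    simp at h
  · intro h3
    have hY : Y = 3 := by linear_combination h3
    rw [hY] at h
    have : (3 - 3 : k) = 0 := by ring
    rw [this, zero_pow (by omega), mul_zero, zero_sub, neg_eq_zero] at h
    have h8 : (3 + 5 : k) ≠ 0 := by norm_num
    have h6 : (3 + 3 : k) ≠ 0 := by norm_num
    have h3' : (3 : k) ≠ 0 := by norm_num
    exact mul_ne_zero hW (mul_ne_zero (mul_ne_zero (pow_ne_zero _ h3') (pow_ne_zero _ h8))
      (pow_ne_zero _ h6)) h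
  · intro h3
    have hY : Y = -3 := by linear_combination h3
    rw [hY] at h
    have : (-3 + 3 : k) = 0 := by ring
    rw [this, zero_pow (by norm_num), mul_zero, mul_zero, sub_zero] at h
    have h8 : (-3 - 5 : k) ≠ 0 := by norm_num
    have h6 : (-3 - 3 : k) ≠ 0 := by norm_num
    exact mul_ne_zero (pow_ne_zero _ h8) (pow_ne_zero _ h6) h

lemma V_of_root {s : ℕ} (hs : 1 ≤ s) {W Y : k} (hW : W ≠ 0) (h : (E s W).eval Y = 0) :
    W * ZY Y ^ s = VY Y := by
  obtain ⟨h0, h3, h3'⟩ := root_E_ne hs hW h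
  rw [eval_E] at h
  rw [ZY, VY, div_pow, mul_pow, eq_div_iff (mul_ne_zero h0 (pow_ne_zero 2 h3'))]
  rw [mul_comm, ← mul_assoc, mul_div_assoc', div_eq_iff (pow_ne_zero _ h3)]
  have e1 : (Y ^ 2) ^ s * Y = Y ^ (2 * s + 1) := by ring
  linear_combination (-1) * h + (W * (Y + 5) ^ s * (Y + 3) ^ 2) * e1

lemma eval_G_of_root {s : ℕ} (hs : 1 ≤ s) {W Y : k} (hW : W ≠ 0) (h : (E s W).eval Y = 0) :
    (G s W).eval (ZY Y) = 0 := by
  obtain ⟨h0, h3, h3'⟩ := root_E_ne hs hW h
  rw [eval_G, V_of_root hs hW h, gg_param h0 h3 h3']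

lemma inj_of_root {s : ℕ} (hs : 1 ≤ s) {W Y Y' : k} (hW : W ≠ 0) (h : (E s W).eval Y = 0)
    (h' : (E s W).eval Y' = 0) (hZ : ZY Y = ZY Y') : Y = Y' := by
  obtain ⟨h0, h3, h3'⟩ := root_E_ne hs hW h
  obtain ⟨k0, k3, k3'⟩ := root_E_ne hs hW h'
  refine param_inj h0 h3 h3' k0 k3 k3' hZ ?_
  rw [← V_of_root hs hW h, ← V_of_root hs hW h', hZ]

lemma natDegree_G {s : ℕ} (hs : 1 ≤ s) {W : k} (hW : W ≠ 0) :
    (G s W).natDegree = 3 * s + 3 := by
  have h27 : (27 * W ^ 3 : k) ≠ 0 := mul_ne_zero (by norm_num) (pow_ne_zero _ hW)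
  have d3 : (C (27 * W ^ 3) * (X ^ (3 * s) * (X * (X + C 3) ^ 2))).natDegree = 3 * s + 3 := by
    rw [natDegree_C_mul h27, Monic.natDegree_mul (monic_X_pow _)
      (monic_X.mul ((monic_X_add_C _).pow _)), natDegree_X_pow,
      Monic.natDegree_mul monic_X ((monic_X_add_C _).pow _), natDegree_X,
      (monic_X_add_C _).natDegree_pow, natDegree_X_add_C]
  have d2 : (C (W ^ 2) * (X ^ (2 * s) * (X * (X + C 3) * (X - C 765)))).natDegree ≤ 2 * s + 3 := by
    compute_degree
  have d1 : (C W * (X ^ s * ((X - C 125) * (C 51 * X + C 25)))).natDegree ≤ s + 2 := by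
    compute_degree
  have d0 : ((X - C 125 : k[X]) ^ 2).natDegree ≤ 2 := by compute_degree
  rw [G, natDegree_add_eq_right_of_natDegree_lt, d3]
  rw [d3]
  have h1 := natDegree_sub_le ((X - C 125 : k[X]) ^ 2 -
    C W * (X ^ s * ((X - C 125) * (C 51 * X + C 25))))
    (C (W ^ 2) * (X ^ (2 * s) * (X * (X + C 3) * (X - C 765))))
  have h2 := natDegree_sub_le ((X - C 125 : k[X]) ^ 2)
    (C W * (X ^ s * ((X - C 125) * (C 51 * X + C 25))))
  omega

variable [IsAlgClosed k] [DecidableEq k]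

lemma card_roots_E {s : ℕ} {W : k} (hW : W ≠ 0) (hnd : (E s W).roots.Nodup) :
    (E s W).roots.toFinset.card = 3 * s + 3 := by
  rw [Multiset.toFinset_card_of_nodup hnd, ← (IsAlgClosed.splits (E s W)).natDegree_eq_card_roots,
    natDegree_E s hW]

/-- For a good `W`, `G_W` has no multiple root. -/
theorem nodup_G {s : ℕ} (hs : 1 ≤ s) {W : k} (hW : W ≠ 0) (hnd : (E s W).roots.Nodup) :
    (G s W).roots.Nodup := by
  have hE0 : E s W ≠ 0 := by
    intro h
    have := natDegree_E s hW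
    rw [h, natDegree_zero] at this
    omega
  have hG0 : G s W ≠ 0 := by
    intro h
    have := natDegree_G hs hW
    rw [h, natDegree_zero] at this
    omega
  have h1 : ((E s W).roots.toFinset.image ZY) ⊆ (G s W).roots.toFinset := by
    intro z hz
    obtain ⟨y, hy, rfl⟩ := Finset.mem_image.1 hz
    rw [Multiset.mem_toFinset, mem_roots hE0] at hy
    rw [Multiset.mem_toFinset, mem_roots hG0]
    exact eval_G_of_root hs hW hy
  have h2 : ((E s W).roots.toFinset.image ZY).card = 3 * s + 3 := by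
    rw [Finset.card_image_of_injOn, card_roots_E hW hnd]
    intro y hy y' hy' hyy
    rw [Finset.mem_coe, Multiset.mem_toFinset, mem_roots hE0] at hy hy'
    exact inj_of_root hs hW hy hy' hyy
  have h3 := Finset.card_le_card h1
  have h4 := (G s W).roots.toFinset_card_le
  have h5 := card_roots' (G s W)
  rw [natDegree_G hs hW] at h5
  exact Multiset.toFinset_card_eq_card_iff_nodup.1 (by omega)

/-- For a good `W`, every root of `G_W` comes from the parametrisation. -/
theorem exists_param {s : ℕ} (hs : 1 ≤ s) {W : k} (hW : W ≠ 0) (hnd : (E s W).roots.Nodup)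
    {Z : k} (hZ : (G s W).eval Z = 0) : ∃ Y, (E s W).eval Y = 0 ∧ ZY Y = Z := by
  have hE0 : E s W ≠ 0 := by
    intro h
    have := natDegree_E s hW
    rw [h, natDegree_zero] at this
    omega
  have hG0 : G s W ≠ 0 := by
    intro h
    have := natDegree_G hs hW
    rw [h, natDegree_zero] at this
    omega
  have h1 : ((E s W).roots.toFinset.image ZY) ⊆ (G s W).roots.toFinset := by
    intro z hz
    obtain ⟨y, hy, rfl⟩ := Finset.mem_image.1 hz
    rw [Multiset.mem_toFinset, mem_roots hE0] at hy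
    rw [Multiset.mem_toFinset, mem_roots hG0]
    exact eval_G_of_root hs hW hy
  have h2 : ((E s W).roots.toFinset.image ZY).card = 3 * s + 3 := by
    rw [Finset.card_image_of_injOn, card_roots_E hW hnd]
    intro y hy y' hy' hyy
    rw [Finset.mem_coe, Multiset.mem_toFinset, mem_roots hE0] at hy hy'
    exact inj_of_root hs hW hy hy' hyy
  have h4 := (G s W).roots.toFinset_card_le
  have h5 := card_roots' (G s W)
  rw [natDegree_G hs hW] at h5
  have h6 := Finset.eq_of_subset_of_card_le h1 (by omega)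
  have h7 : Z ∈ (G s W).roots.toFinset := by
    rw [Multiset.mem_toFinset, mem_roots hG0]
    exact hZ
  rw [← h6] at h7
  obtain ⟨y, hy, rfl⟩ := Finset.mem_image.1 h7
  rw [Multiset.mem_toFinset, mem_roots hE0] at hy
  exact ⟨y, hy, rfl⟩

end Curve

end Pool.Agent.Lib.MP_625f41_nt.H7
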