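import Pool.Agent.Lib.MP_625f41_nt.Basic

/-!
# From a family of polynomials to a lower bound for the exponent; traces from `ℤ[√d]`
-/

open Polynomial Filter

namespace Pool.Agent.Lib.MP_625f41_nt.H7

/-- A family of polynomials with heights `≤ M U^K` and separations `≤ C U^{-a}` gives the
exponent `a / K`. -/
theorem le_of_family {𝒞 : ℤ[X] → Prop} (h𝒞 : ∀ P, 𝒞 P → HasDistinctRoots P) {n : ℕ}
    (h2 : 2 ≤ n) (P : ℕ → ℤ[X]) (U : ℕ → ℝ) (hU : Tendsto U atTop atTop) (K a : ℕ) (hK : 0 < K)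
    (M C : ℝ) (hM : 1 ≤ M) (hC : 0 ≤ C)
    (h : ∀ᶠ j in atTop, (P j).natDegree = n ∧ 𝒞 (P j) ∧
      (∀ i, |((P j).coeff i : ℝ)| ≤ M * U j ^ K) ∧ sep (P j) ≤ C / U j ^ a) :
    (((a : ℝ) / (K : ℝ) : ℝ) : EReal) ≤ sepExponent 𝒞 n := by
  refine le_sepExponent h𝒞 h2 ((a : ℝ) / K) (C * (2 * M) ^ ((a : ℝ) / K)) ?_
  intro N
  obtain ⟨j, ⟨hn, hC', hco, hsep⟩, hj⟩ := (h.and (hU.eventually_ge_atTop (max 1 (N : ℝ)))).exists
  have hU1 : 1 ≤ U j := (le_max_left _ _).trans hj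
  have hUN : (N : ℝ) ≤ U j := (le_max_right _ _).trans hj
  have hU0 : 0 < U j := by linarith
  have hKR : (0 : ℝ) < K := by exact_mod_cast hK
  have hUK : U j ≤ U j ^ K := le_self_pow₀ hU1 (by omega)
  have hMU : U j ^ K ≤ M * U j ^ K := by nlinarith [pow_pos hU0 K]
  set H : ℕ := ⌈M * U j ^ K⌉₊ with hH
  have hH1 : M * U j ^ K ≤ H := Nat.le_ceil _
  have hH2 : (H : ℝ) ≤ 2 * M * U j ^ K := by
    have := (Nat.ceil_lt_add_one (a := M * U j ^ K) (by positivity)).le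
    linarith
  have hHN : N ≤ H := by
    have : (N : ℝ) ≤ H := by linarith
    exact_mod_cast this
  refine ⟨H, hHN, P j, hn, ?_, hC', ?_⟩
  · rw [height_le_iff]
    intro i
    have h1 : |((P j).coeff i : ℝ)| ≤ H := (hco i).trans hH1
    have h2 : (((P j).coeff i).natAbs : ℝ) ≤ H := by
      rwa [Nat.cast_natAbs, Int.cast_abs]
    exact_mod_cast h2
  · refine hsep.trans ?_
    have hHpos : (0 : ℝ) < H := by linarith
    have ha : (0 : ℝ) ≤ (a : ℝ) / K := by positivity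
    have h1 : (H : ℝ) ^ ((a : ℝ) / K) ≤ (2 * M) ^ ((a : ℝ) / K) * U j ^ a := by
      calc (H : ℝ) ^ ((a : ℝ) / K) ≤ (2 * M * U j ^ K) ^ ((a : ℝ) / K) :=
            Real.rpow_le_rpow hHpos.le hH2 ha
        _ = (2 * M) ^ ((a : ℝ) / K) * (U j ^ K) ^ ((a : ℝ) / K) := by
            rw [Real.mul_rpow (by positivity) (by positivity)]
        _ = (2 * M) ^ ((a : ℝ) / K) * U j ^ a := by
            rw [← Real.rpow_natCast (U j) K, ← Real.rpow_mul hU0.le, mul_div_cancel₀ _ hKR.ne',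
              Real.rpow_natCast]
    rw [Real.rpow_neg hHpos.le, ← div_eq_mul_inv, div_le_div_iff₀ (pow_pos hU0 a)
      (Real.rpow_pos_of_pos hHpos _)]
    have := mul_le_mul_of_nonneg_left h1 hC
    linarith

section Trace

variable {d : ℤ}

/-- Real parts of the coefficients of a polynomial over `ℤ[√d]`. -/
noncomputable def rePoly (p : (ℤ√d)[X]) : ℤ[X] := ∑ i ∈ p.support, monomial i (p.coeff i).re

lemma coeff_rePoly (p : (ℤ√d)[X]) (i : ℕ) : (rePoly p).coeff i = (p.coeff i).re := by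
  classical
  simp only [rePoly, finsetSum_coeff, coeff_monomial]
  by_cases h : i ∈ p.support
  · rw [Finset.sum_eq_single i]
    · simp
    · intro b _ hb; rw [if_neg hb]
    · intro h'; exact absurd h h'
  · have h0 : p.coeff i = 0 := by simpa using h
    rw [h0]
    refine Finset.sum_eq_zero fun b hb => ?_
    rw [if_neg]
    · rintro rfl; exact h hb

lemma natDegree_rePoly_le (p : (ℤ√d)[X]) : (rePoly p).natDegree ≤ p.natDegree := by
  rw [natDegree_le_iff_coeff_eq_zero]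
  intro i hi
  rw [coeff_rePoly, coeff_eq_zero_of_natDegree_lt hi]
  rfl

lemma two_re {k : Type*} [CommRing k] (φ : ℤ√d →+* k) (x : ℤ√d) :
    2 * ((x.re : ℤ) : k) = φ x + φ (star x) := by
  have h : x + star x = ((2 * x.re : ℤ) : ℤ√d) := by
    ext
    · simp; ring
    · simp
  rw [← map_add, h, map_intCast]
  push_cast
  ring

/-- The trace relation. -/
lemma two_rePoly {k : Type*} [CommRing k] (φ : ℤ√d →+* k) (p : (ℤ√d)[X]) :
    2 * (rePoly p).map (Int.castRingHom k) =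
      p.map φ + p.map (φ.comp (starRingEnd (ℤ√d))) := by
  ext i
  have h2 : (2 : k[X]) = C 2 := (map_ofNat C 2).symm
  rw [h2, coeff_C_mul, coeff_map, coeff_rePoly, coeff_add, coeff_map, coeff_map]
  exact two_re φ _

/-- The size of an element of `ℤ[√d]` in both embeddings. -/
noncomputable def Nm (φ : ℤ√d →+* ℝ) (x : ℤ√d) : ℝ := |φ x| + |φ (star x)|

lemma Nm_nonneg (φ : ℤ√d →+* ℝ) (x : ℤ√d) : 0 ≤ Nm φ x := by unfold Nm; positivity

lemma abs_re_le (φ : ℤ√d →+* ℝ) (x : ℤ√d) : |((x.re : ℤ) : ℝ)| ≤ Nm φ x := by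
  have h := two_re φ x
  have h1 : |2 * ((x.re : ℤ) : ℝ)| ≤ Nm φ x := by
    rw [h]; exact abs_add_le _ _
  rw [abs_mul, abs_two] at h1
  have := abs_nonneg ((x.re : ℤ) : ℝ)
  linarith

lemma Nm_add (φ : ℤ√d →+* ℝ) (x y : ℤ√d) : Nm φ (x + y) ≤ Nm φ x + Nm φ y := by
  unfold Nm
  rw [star_add, map_add, map_add]
  have h1 := abs_add_le (φ x) (φ y)
  have h2 := abs_add_le (φ (star x)) (φ (star y))
  linarith

lemma Nm_mul (φ : ℤ√d →+* ℝ) (x y : ℤ√d) : Nm φ (x * y) ≤ Nm φ x * Nm φ y := by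
  unfold Nm
  rw [star_mul, map_mul, map_mul, abs_mul, abs_mul]
  have h1 := abs_nonneg (φ x)
  have h2 := abs_nonneg (φ y)
  have h3 := abs_nonneg (φ (star x))
  have h4 := abs_nonneg (φ (star y))
  nlinarith [mul_nonneg h1 h4, mul_nonneg h3 h2]

lemma Nm_sum (φ : ℤ√d →+* ℝ) {ι : Type*} (S : Finset ι) (f : ι → ℤ√d) :
    Nm φ (∑ k ∈ S, f k) ≤ ∑ k ∈ S, Nm φ (f k) := by
  classical
  induction S using Finset.induction_on with
  | empty => simp [Nm]
  | insert a S ha ih =>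
    rw [Finset.sum_insert ha, Finset.sum_insert ha]
    exact (Nm_add φ _ _).trans (by linarith)

/-- Heights of a family `∑ c_k E_k` with fixed polynomials `E_k`. -/
lemma height_bound (φ : ℤ√d →+* ℝ) {m : ℕ} (E : Fin m → (ℤ√d)[X]) :
    ∃ M : ℝ, 1 ≤ M ∧ ∀ (c : Fin m → ℤ√d) (B : ℝ), 0 ≤ B → (∀ k, Nm φ (c k) ≤ B) →
      ∀ i, |((rePoly (∑ k, C (c k) * E k)).coeff i : ℝ)| ≤ M * B := by
  classical
  refine ⟨1 + ∑ k, ∑ i ∈ (E k).support, Nm φ ((E k).coeff i), ?_, ?_⟩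
  · have : 0 ≤ ∑ k, ∑ i ∈ (E k).support, Nm φ ((E k).coeff i) :=
      Finset.sum_nonneg fun k _ => Finset.sum_nonneg fun i _ => Nm_nonneg φ _
    linarith
  intro c B hB0 hB i
  rw [coeff_rePoly]
  refine (abs_re_le φ _).trans ?_
  rw [finsetSum_coeff]
  refine (Nm_sum φ _ _).trans ?_
  rw [add_mul, one_mul, Finset.sum_mul]
  refine le_trans ?_ (le_add_of_nonneg_left hB0)
  refine Finset.sum_le_sum fun k _ => ?_
  rw [coeff_C_mul]
  refine (Nm_mul φ _ _).trans ?_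
  have h1 : Nm φ ((E k).coeff i) ≤ ∑ i ∈ (E k).support, Nm φ ((E k).coeff i) := by
    by_cases hi : i ∈ (E k).support
    · exact Finset.single_le_sum (f := fun i => Nm φ ((E k).coeff i))
        (fun i _ => Nm_nonneg φ _) hi
    · have h0 : (E k).coeff i = 0 := by simpa using hi
      rw [h0]
      have : Nm φ 0 = 0 := by simp [Nm]
      rw [this]
      exact Finset.sum_nonneg fun i _ => Nm_nonneg φ _
  calc Nm φ (c k) * Nm φ ((E k).coeff i)
      ≤ B * ∑ i ∈ (E k).support, Nm φ ((E k).coeff i) :=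
        mul_le_mul (hB k) h1 (Nm_nonneg φ _) hB0
    _ = _ := mul_comm _ _

end Trace

end Pool.Agent.Lib.MP_625f41_nt.H7
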