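import Pool.Agent.Lib.MP_625f41_nt.H7.Curve
import Pool.Agent.Lib.MP_625f41_nt.H7.Transfer

/-!
# The family of integer polynomials of degree `3 s + 3`

It is defined over `ℤ[√19]`, where `3` and `5` split.
-/

open Polynomial

namespace Pool.Agent.Lib.MP_625f41_nt.H7

/-- The ring `ℤ[√19]`. -/
abbrev A := ℤ√19

/-- An element of norm `-3`. -/
def p3 : A := ⟨4, 1⟩

/-- An element of norm `5`. -/
def p5 : A := ⟨9, 2⟩

/-- The fundamental unit. -/
def eps : A := ⟨170, 39⟩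

/-- The square root of `19`. -/
def rt : A := ⟨0, 1⟩

lemma p3_mul : p3 * star p3 = -3 := by decide

lemma p5_mul : p5 * star p5 = 5 := by decide

lemma eps_mul : eps * star eps = 1 := by decide

lemma star_rt : star rt = -rt := by decide

lemma rt_mul : rt * rt = 19 := by decide

/-- `√19 - X` up to sign. -/
noncomputable def Lm : A[X] := X - C rt

/-- `√19 + X`. -/
noncomputable def Lp : A[X] := X - C (-rt)

/-- The coefficients of the family. -/
noncomputable def cc (j : ℕ) : Fin 6 → A :=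
  ![9 * star p5 ^ 3 * p3 ^ 2 * (eps ^ j) ^ 5, (-18) * p3 * star p5 ^ 6 * eps ^ j,
    9 * star p5 ^ 9 * (star eps ^ j) ^ 3, (-3825) * p3 * (eps ^ j) ^ 3,
    3810 * star p5 ^ 3 * star eps ^ j, (-5) * star p3 * star p5 ^ 6 * (star eps ^ j) ^ 5]

/-- The fixed polynomials of the family. -/
noncomputable def ee (s : ℕ) : Fin 6 → A[X] :=
  ![Lm ^ 2 * Lp * (Lp ^ s) ^ 3, Lm * Lp ^ 2 * (Lp ^ s) ^ 3, Lp ^ 3 * (Lp ^ s) ^ 3,
    Lm ^ s * Lm ^ 2 * Lp * (Lp ^ s) ^ 2, Lm ^ s * Lm * Lp ^ 2 * (Lp ^ s) ^ 2,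
    Lm ^ s * Lp ^ 3 * (Lp ^ s) ^ 2]

/-- The family over `ℤ[√19]`. -/
noncomputable def FF (s j : ℕ) : A[X] := ∑ k, C (cc j k) * ee s k

/-- The family over `ℤ`. -/
noncomputable def PP (s j : ℕ) : ℤ[X] := rePoly (FF s j)

lemma monic_Lm : Lm.Monic := monic_X_sub_C _

lemma monic_Lp : Lp.Monic := monic_X_sub_C _

lemma natDegree_Lm : Lm.natDegree = 1 := natDegree_X_sub_C _

lemma natDegree_Lp : Lp.natDegree = 1 := natDegree_X_sub_C _

lemma monic_ee (s : ℕ) (k : Fin 6) : (ee s k).Monic := by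
  have h1 := monic_Lm
  have h2 := monic_Lp
  fin_cases k
  · exact ((h1.pow _).mul h2).mul ((h2.pow _).pow _)
  · exact (h1.mul (h2.pow _)).mul ((h2.pow _).pow _)
  · exact (h2.pow _).mul ((h2.pow _).pow _)
  · exact (((h1.pow _).mul (h1.pow _)).mul h2).mul ((h2.pow _).pow _)
  · exact (((h1.pow _).mul h1).mul (h2.pow _)).mul ((h2.pow _).pow _)
  · exact ((h1.pow _).mul (h2.pow _)).mul ((h2.pow _).pow _)

lemma natDegree_ee (s : ℕ) (k : Fin 6) : (ee s k).natDegree = 3 * s + 3 := by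
  have h1 := monic_Lm
  have h2 := monic_Lp
  have d1 := natDegree_Lm
  have d2 := natDegree_Lp
  fin_cases k
  · show (Lm ^ 2 * Lp * (Lp ^ s) ^ 3).natDegree = _
    rw [((h1.pow _).mul h2).natDegree_mul ((h2.pow _).pow _), (h1.pow _).natDegree_mul h2,
      (h2.pow _).natDegree_pow, h2.natDegree_pow, h1.natDegree_pow, d1, d2]
    ring
  · show (Lm * Lp ^ 2 * (Lp ^ s) ^ 3).natDegree = _
    rw [(h1.mul (h2.pow _)).natDegree_mul ((h2.pow _).pow _), h1.natDegree_mul (h2.pow _),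
      (h2.pow _).natDegree_pow, h2.natDegree_pow, h2.natDegree_pow, d1, d2]
    ring
  · show (Lp ^ 3 * (Lp ^ s) ^ 3).natDegree = _
    rw [(h2.pow _).natDegree_mul ((h2.pow _).pow _),
      (h2.pow _).natDegree_pow, h2.natDegree_pow, h2.natDegree_pow, d2]
    ring
  · show (Lm ^ s * Lm ^ 2 * Lp * (Lp ^ s) ^ 2).natDegree = _
    rw [(((h1.pow _).mul (h1.pow _)).mul h2).natDegree_mul ((h2.pow _).pow _),
      ((h1.pow _).mul (h1.pow _)).natDegree_mul h2, (h1.pow _).natDegree_mul (h1.pow _),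
      (h2.pow _).natDegree_pow, h2.natDegree_pow, h1.natDegree_pow, h1.natDegree_pow, d1, d2]
    ring
  · show (Lm ^ s * Lm * Lp ^ 2 * (Lp ^ s) ^ 2).natDegree = _
    rw [(((h1.pow _).mul h1).mul (h2.pow _)).natDegree_mul ((h2.pow _).pow _),
      ((h1.pow _).mul h1).natDegree_mul (h2.pow _), (h1.pow _).natDegree_mul h1,
      (h2.pow _).natDegree_pow, h2.natDegree_pow, h2.natDegree_pow, h1.natDegree_pow, d1, d2]
    ring
  · show (Lm ^ s * Lp ^ 3 * (Lp ^ s) ^ 2).natDegree = _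
    rw [((h1.pow _).mul (h2.pow _)).natDegree_mul ((h2.pow _).pow _),
      (h1.pow _).natDegree_mul (h2.pow _),
      (h2.pow _).natDegree_pow, h2.natDegree_pow, h2.natDegree_pow, h1.natDegree_pow, d1, d2]
    ring

lemma natDegree_PP_le (s j : ℕ) : (PP s j).natDegree ≤ 3 * s + 3 := by
  refine (natDegree_rePoly_le _).trans (natDegree_sum_le_of_forall_le _ _ fun k _ => ?_)
  exact (natDegree_C_mul_le _ _).trans (natDegree_ee s k).le

lemma coeff_FF_top (s j : ℕ) : (FF s j).coeff (3 * s + 3) = ∑ k, cc j k := by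
  rw [FF, finsetSum_coeff]
  refine Finset.sum_congr rfl fun k _ => ?_
  rw [coeff_C_mul, ← natDegree_ee s k, (monic_ee s k).coeff_natDegree, mul_one]

instance : Fact (Nat.Prime 3) := ⟨Nat.prime_three⟩

/-- Reduction modulo a prime over `3`. -/
noncomputable def red3 : A →+* ZMod 3 := Zsqrtd.lift ⟨-1, by decide⟩

lemma red3_apply (x : A) : red3 x = (x.re : ZMod 3) + (x.im : ZMod 3) * (-1) := rfl

lemma coeff_PP_top_ne (s j : ℕ) : (PP s j).coeff (3 * s + 3) ≠ 0 := by
  intro h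
  rw [PP, coeff_rePoly, coeff_FF_top] at h
  have h1 := two_re red3 (∑ k, cc j k)
  rw [h, Int.cast_zero, mul_zero] at h1
  have h9 : (9 : ZMod 3) = 0 := by decide
  have h18 : (-18 : ZMod 3) = 0 := by decide
  have h3825 : (-3825 : ZMod 3) = 0 := by decide
  have h3810 : (3810 : ZMod 3) = 0 := by decide
  have h5 : (-5 : ZMod 3) = 1 := by decide
  have e1 : red3 (star p3) = 2 := by rw [red3_apply]; decide
  have e2 : red3 (star p5) = 2 := by rw [red3_apply]; decide
  have e3 : red3 (star eps) = 2 := by rw [red3_apply]; decide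
  have e4 : red3 p3 = 0 := by rw [red3_apply]; decide
  have f1 : red3 (∑ k, cc j k) = 2 ^ 7 * (2 ^ j) ^ 5 := by
    simp only [Fin.sum_univ_six, cc, Matrix.cons_val, map_add, map_mul, map_pow, map_neg,
      map_ofNat, e1, e2, e3, e4]
    rw [h9, h18, h3825, h3810, h5]
    ring
  have f2 : red3 (star (∑ k, cc j k)) = 0 := by
    simp only [Fin.sum_univ_six, cc, Matrix.cons_val, map_add, map_mul, map_pow, map_neg, star_add,
      star_mul, star_pow, star_star, star_neg, star_ofNat, map_ofNat, e1, e3, e4]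
    have h18' : (18 : ZMod 3) = 0 := by decide
    have h3825' : (3825 : ZMod 3) = 0 := by decide
    rw [h9, h18', h3825', h3810]
    ring
  rw [f1, f2, add_zero] at h1
  have h2 : (2 : ZMod 3) ≠ 0 := by decide
  exact mul_ne_zero (pow_ne_zero _ h2) (pow_ne_zero _ (pow_ne_zero _ h2)) h1.symm

lemma natDegree_PP (s j : ℕ) : (PP s j).natDegree = 3 * s + 3 :=
  natDegree_eq_of_le_of_coeff_ne_zero (natDegree_PP_le s j) (coeff_PP_top_ne s j)

/-- The polynomial identity behind the family. -/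
lemma key_identity {k : Type*} [Field k] [CharZero k] {p q u p' q' u' L L' t t' : k} (hp : p * p' = -3)
    (hq : q * q' = 5) (hu : u * u' = 1) (hL : L' ≠ 0) (ht : t' ≠ 0) :
    (9 * q' ^ 3 * p ^ 2 * u ^ 5 * (L ^ 2 * L' * t' ^ 3) + (-18) * p * q' ^ 6 * u * (L * L' ^ 2 * t' ^ 3) +
      9 * q' ^ 9 * u' ^ 3 * (L' ^ 3 * t' ^ 3) + (-3825) * p * u ^ 3 * (t * L ^ 2 * L' * t' ^ 2) +
      3810 * q' ^ 3 * u' * (t * L * L' ^ 2 * t' ^ 2) +
      (-5) * p' * q' ^ 6 * u' ^ 5 * (t * L' ^ 3 * t' ^ 2)) +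
    (9 * q ^ 3 * p' ^ 2 * u' ^ 5 * (L' ^ 2 * L * t ^ 3) + (-18) * p' * q ^ 6 * u' * (L' * L ^ 2 * t ^ 3) +
      9 * q ^ 9 * u ^ 3 * (L ^ 3 * t ^ 3) + (-3825) * p' * u' ^ 3 * (t' * L' ^ 2 * L * t ^ 2) +
      3810 * q ^ 3 * u * (t' * L' * L ^ 2 * t ^ 2) +
      (-5) * p * q ^ 6 * u ^ 5 * (t' * L ^ 3 * t ^ 2)) =
    (9 * q' ^ 3 * u' ^ 3 / q ^ 6) * (L' ^ 3 * t' ^ 3) *
      gg (p * q ^ 3 * u ^ 4 * L / L') ((-p' * q ^ 2 * u' ^ 2 / (9 * q')) * t / t') := by
  have hp0 : p ≠ 0 := by rintro rfl; norm_num at hp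
  have hq0 : q ≠ 0 := by rintro rfl; norm_num at hq
  have hu0 : u ≠ 0 := by rintro rfl; norm_num at hu
  have hp' : p' = -3 / p := by field_simp; linear_combination hp
  have hq' : q' = 5 / q := by field_simp; linear_combination hq
  have hu' : u' = 1 / u := by field_simp; linear_combination hu
  subst hp' hq' hu'
  rw [gg]
  field_simp
  ring

section Eval

variable {k : Type*} [Field k] [CharZero k] (φ : A →+* k)

lemma nonsquare (n : ℤ) : (19 : ℤ) ≠ n * n := by
  intro h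
  have h1 : n ≤ 4 := by nlinarith
  have h2 : -4 ≤ n := by nlinarith
  interval_cases n <;> omega

/-- Every ring homomorphism from `ℤ[√19]` to a field of characteristic zero is injective. -/
lemma phi_injective : Function.Injective φ := by
  rw [injective_iff_map_eq_zero]
  intro x hx
  have h1 : φ ((x.norm : ℤ) : A) = 0 := by
    rw [Zsqrtd.norm_eq_mul_conj, map_mul, hx, zero_mul]
  rw [map_intCast, Int.cast_eq_zero] at h1
  exact (Zsqrtd.norm_eq_zero nonsquare x).1 h1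

/-- The scaling `τ_j`. -/
def tau (j : ℕ) : k := φ p3 * φ p5 ^ 3 * φ (eps ^ j) ^ 4

/-- The constant `w_j`. -/
def ww (j : ℕ) : k := -φ (star p3) * φ p5 ^ 2 * φ (star eps ^ j) ^ 2 / (9 * φ (star p5))

/-- The parameter `W_j`. -/
def WW (s j : ℕ) : k := ww φ j / tau φ j ^ s

/-- The normalising constant. -/
def cst (j : ℕ) : k := 9 * φ (star p5) ^ 3 * φ (star eps ^ j) ^ 3 / φ p5 ^ 6

omit [CharZero k] in
lemma phi_p3 : φ p3 * φ (star p3) = -3 := by rw [← map_mul, p3_mul, map_neg, map_ofNat]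

omit [CharZero k] in
lemma phi_p5 : φ p5 * φ (star p5) = 5 := by rw [← map_mul, p5_mul, map_ofNat]

omit [CharZero k] in
lemma phi_eps (j : ℕ) : φ (eps ^ j) * φ (star eps ^ j) = 1 := by
  rw [← map_mul, ← mul_pow, eps_mul, one_pow, map_one]

lemma phi_p3_ne : φ p3 ≠ 0 := fun h => by have := phi_p3 φ; rw [h] at this; norm_num at this

lemma phi_p3'_ne : φ (star p3) ≠ 0 := fun h => by
  have := phi_p3 φ; rw [h] at this; norm_num at this

lemma phi_p5_ne : φ p5 ≠ 0 := fun h => by have := phi_p5 φ; rw [h] at this; norm_num at this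

lemma phi_p5'_ne : φ (star p5) ≠ 0 := fun h => by
  have := phi_p5 φ; rw [h] at this; norm_num at this

lemma phi_eps_ne (j : ℕ) : φ (eps ^ j) ≠ 0 := fun h => by
  have := phi_eps φ j; rw [h] at this; norm_num at this

lemma phi_eps'_ne (j : ℕ) : φ (star eps ^ j) ≠ 0 := fun h => by
  have := phi_eps φ j; rw [h] at this; norm_num at this

lemma tau_ne (j : ℕ) : tau φ j ≠ 0 :=
  mul_ne_zero (mul_ne_zero (phi_p3_ne φ) (pow_ne_zero _ (phi_p5_ne φ)))
    (pow_ne_zero _ (phi_eps_ne φ j))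

lemma ww_ne (j : ℕ) : ww φ j ≠ 0 := by
  rw [ww]
  refine div_ne_zero (mul_ne_zero (mul_ne_zero (neg_ne_zero.2 (phi_p3'_ne φ))
    (pow_ne_zero _ (phi_p5_ne φ))) (pow_ne_zero _ (phi_eps'_ne φ j)))
    (mul_ne_zero (by norm_num) (phi_p5'_ne φ))

lemma WW_ne (s j : ℕ) : WW φ s j ≠ 0 := div_ne_zero (ww_ne φ j) (pow_ne_zero _ (tau_ne φ j))

lemma cst_ne (j : ℕ) : cst φ j ≠ 0 :=
  div_ne_zero (mul_ne_zero (mul_ne_zero (by norm_num) (pow_ne_zero _ (phi_p5'_ne φ)))
    (pow_ne_zero _ (phi_eps'_ne φ j))) (pow_ne_zero _ (phi_p5_ne φ))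

omit [CharZero k] in
lemma eval_map_FF (s j : ℕ) (x : k) : ((FF s j).map φ).eval x =
    ∑ i, φ (cc j i) * ((ee s i).map φ).eval x := by
  simp only [FF, Polynomial.map_sum, eval_finsetSum, Polynomial.map_mul, map_C, eval_mul, eval_C]

/-- The members of the family in terms of `G_W`. -/
theorem eval_PP (s j : ℕ) {x : k} (hx : x + φ rt ≠ 0) :
    2 * ((PP s j).map (Int.castRingHom k)).eval x =
      cst φ j * (x + φ rt) ^ (3 * s + 3) *
        (G s (WW φ s j)).eval (tau φ j * (x - φ rt) / (x + φ rt)) := by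
  have h1 := congrArg (eval x) (two_rePoly φ (FF s j))
  rw [eval_mul, eval_add, eval_ofNat] at h1
  rw [PP, h1, eval_G]
  have hV : WW φ s j * (tau φ j * (x - φ rt) / (x + φ rt)) ^ s =
      (-φ (star p3) * φ p5 ^ 2 * φ (star eps ^ j) ^ 2 / (9 * φ (star p5))) * (x - φ rt) ^ s /
        (x + φ rt) ^ s := by
    rw [WW, ww, div_pow, mul_pow]
    have := tau_ne φ j
    have := phi_p5'_ne φ
    field_simp
  rw [hV, tau]
  have hk := key_identity (L := x - φ rt) (t := (x - φ rt) ^ s) (phi_p3 φ) (phi_p5 φ)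
    (phi_eps φ j) hx (pow_ne_zero s hx)
  have e1 : (x + φ rt) ^ (3 * s + 3) = (x + φ rt) ^ 3 * ((x + φ rt) ^ s) ^ 3 := by ring
  rw [e1, cst, ← hk]
  have hstar : φ (star rt) = -φ rt := by rw [star_rt, map_neg]
  congr 1
  · rw [eval_map_FF]
    simp only [Fin.sum_univ_six, cc, ee, Matrix.cons_val, Lm, Lp,
      Polynomial.map_mul, Polynomial.map_pow, Polynomial.map_sub, map_X, map_C, eval_mul,
      eval_pow, eval_sub, eval_X, eval_C, map_mul, map_pow, map_neg φ, map_ofNat φ, sub_neg_eq_add]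
  · rw [eval_map_FF]
    simp only [Fin.sum_univ_six, cc, ee, Matrix.cons_val, Lm, Lp,
      Polynomial.map_mul, Polynomial.map_pow, Polynomial.map_sub, map_X, map_C, eval_mul,
      eval_pow, eval_sub, eval_X, eval_C, RingHom.comp_apply, starRingEnd_apply, star_mul',
      star_pow, star_neg, star_ofNat, star_star, map_mul, map_pow, map_neg φ, map_ofNat φ, hstar,
      sub_neg_eq_add, neg_neg]

/-- The leading coefficient in terms of `G_W`. -/
theorem lead_PP (s j : ℕ) : 2 * (((PP s j).coeff (3 * s + 3) : ℤ) : k) =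
    cst φ j * (G s (WW φ s j)).eval (tau φ j) := by
  rw [PP, coeff_rePoly, coeff_FF_top, two_re φ, eval_G]
  have hV : WW φ s j * tau φ j ^ s =
      (-φ (star p3) * φ p5 ^ 2 * φ (star eps ^ j) ^ 2 / (9 * φ (star p5))) := by
    rw [WW, ww]
    have := tau_ne φ j
    have := phi_p5'_ne φ
    field_simp
  rw [hV, tau, cst]
  have hk := key_identity (L := (1 : k)) (t := (1 : k)) (phi_p3 φ) (phi_p5 φ)
    (phi_eps φ j) (one_ne_zero) (one_ne_zero)
  simp only [one_pow, mul_one, div_one] at hk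
  rw [← hk]
  congr 1
  · simp only [Fin.sum_univ_six, cc, Matrix.cons_val, map_add, map_mul, map_pow, map_neg,
      map_ofNat]
  · simp only [Fin.sum_univ_six, cc, Matrix.cons_val, star_add, star_mul',
      star_pow, star_neg, star_ofNat, star_star, map_add, map_mul, map_pow, map_neg, map_ofNat]

lemma G_tau_ne (s j : ℕ) : (G s (WW φ s j)).eval (tau φ j) ≠ 0 := by
  intro h
  have h1 := lead_PP φ s j
  rw [h, mul_zero] at h1
  have h2 : (((PP s j).coeff (3 * s + 3) : ℤ) : k) ≠ 0 := by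
    exact_mod_cast coeff_PP_top_ne s j
  exact mul_ne_zero two_ne_zero h2 h1

lemma phi_rt_ne : φ rt ≠ 0 := fun h => by
  have h1 : φ rt * φ rt = 19 := by rw [← map_mul, rt_mul, map_ofNat]
  rw [h] at h1
  norm_num at h1

/-- The root of the family which corresponds to a root `Z` of `G_W`. -/
def xz (j : ℕ) (Z : k) : k := φ rt * (tau φ j + Z) / (tau φ j - Z)

omit [CharZero k] in
lemma xz_add {j : ℕ} {Z : k} (hZ : tau φ j - Z ≠ 0) :
    xz φ j Z + φ rt = 2 * φ rt * tau φ j / (tau φ j - Z) := by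
  rw [xz]; field_simp; ring

omit [CharZero k] in
lemma xz_sub {j : ℕ} {Z : k} (hZ : tau φ j - Z ≠ 0) :
    xz φ j Z - φ rt = 2 * φ rt * Z / (tau φ j - Z) := by
  rw [xz]; field_simp; ring

lemma xz_add_ne {j : ℕ} {Z : k} (hZ : tau φ j - Z ≠ 0) : xz φ j Z + φ rt ≠ 0 := by
  rw [xz_add φ hZ]
  exact div_ne_zero (mul_ne_zero (mul_ne_zero two_ne_zero (phi_rt_ne φ)) (tau_ne φ j)) hZ

lemma xz_inv {j : ℕ} {Z : k} (hZ : tau φ j - Z ≠ 0) :
    tau φ j * (xz φ j Z - φ rt) / (xz φ j Z + φ rt) = Z := by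
  rw [xz_add φ hZ, xz_sub φ hZ]
  have := tau_ne φ j
  have := phi_rt_ne φ
  field_simp

lemma tau_sub_ne {s j : ℕ} {Z : k} (hZ : (G s (WW φ s j)).eval Z = 0) : tau φ j - Z ≠ 0 := by
  intro h
  have : Z = tau φ j := by linear_combination -h
  rw [this] at hZ
  exact G_tau_ne φ s j hZ

lemma eval_xz {s j : ℕ} {Z : k} (hZ : (G s (WW φ s j)).eval Z = 0) :
    ((PP s j).map (Int.castRingHom k)).eval (xz φ j Z) = 0 := by
  have h := tau_sub_ne φ hZ
  have h1 := eval_PP φ s j (xz_add_ne φ h)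
  rw [xz_inv φ h, hZ, mul_zero] at h1
  exact (mul_eq_zero.1 h1).resolve_left two_ne_zero

lemma PP_ne_zero (s j : ℕ) : PP s j ≠ 0 := by
  intro h
  have := natDegree_PP s j
  rw [h, natDegree_zero] at this
  omega

omit [Field k] [CharZero k] in
lemma map_PP_ne_zero {k : Type*} [Field k] [CharZero k] (s j : ℕ) :
    (PP s j).map (Int.castRingHom k) ≠ 0 := by
  rw [Ne, Polynomial.map_eq_zero_iff (RingHom.injective_int _)]
  exact PP_ne_zero s j

variable [IsAlgClosed k]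

theorem nodup_PP {s j : ℕ} (hs : 1 ≤ s) (hnd : (E s (WW φ s j)).roots.Nodup) :
    ((PP s j).map (Int.castRingHom k)).roots.Nodup := by
  classical
  have hW := WW_ne φ s j
  have hG := nodup_G hs hW hnd
  have hG0 : G s (WW φ s j) ≠ 0 := by
    intro h
    have := natDegree_G hs hW
    rw [h, natDegree_zero] at this
    omega
  have hcard : (G s (WW φ s j)).roots.toFinset.card = 3 * s + 3 := by
    rw [Multiset.toFinset_card_of_nodup hG,
      ← (IsAlgClosed.splits (G s (WW φ s j))).natDegree_eq_card_roots, natDegree_G hs hW]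
  have h1 : ((G s (WW φ s j)).roots.toFinset.image (xz φ j)) ⊆
      ((PP s j).map (Int.castRingHom k)).roots.toFinset := by
    intro z hz
    obtain ⟨y, hy, rfl⟩ := Finset.mem_image.1 hz
    rw [Multiset.mem_toFinset, mem_roots hG0] at hy
    rw [Multiset.mem_toFinset, mem_roots (map_PP_ne_zero s j)]
    exact eval_xz φ hy
  have h2 : ((G s (WW φ s j)).roots.toFinset.image (xz φ j)).card = 3 * s + 3 := by
    rw [Finset.card_image_of_injOn, hcard]
    intro y hy y' hy' hyy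
    rw [Finset.mem_coe, Multiset.mem_toFinset, mem_roots hG0] at hy hy'
    rw [← xz_inv φ (tau_sub_ne φ hy), hyy, xz_inv φ (tau_sub_ne φ hy')]
  have h3 := Finset.card_le_card h1
  have h4 := ((PP s j).map (Int.castRingHom k)).roots.toFinset_card_le
  have h5 := card_roots' ((PP s j).map (Int.castRingHom k))
  have h6 := natDegree_map_le (f := Int.castRingHom k) (p := PP s j)
  rw [natDegree_PP] at h6
  exact Multiset.toFinset_card_eq_card_iff_nodup.1 (by omega)

end Eval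

end Pool.Agent.Lib.MP_625f41_nt.H7
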