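import Pool.Agent.Lib.MP_625f41_nt.H7.Types

/-!
# Irreducibility of almost all members of the family

A factor `f` of `P_j` gives the element `∏ Z = τ^d f(√19) / f(-√19)` of `ℚ(√19)`, where `Z` runs
over the values which belong to the roots of `f`. Its norm is known, and its real absolute value is
known asymptotically. As its denominator is bounded this gives an identity between numbers
`3^α 5^β`, which is impossible for a proper factor.
-/

open Polynomial Filter

namespace Pool.Agent.Lib.MP_625f41_nt.H7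

lemma finite_bdd (C : ℝ) : {x : A | |fR x| ≤ C ∧ |fR (star x)| ≤ C}.Finite := by
  set N : ℤ := ⌈C⌉ with hN
  have hfin : ((Set.Icc (-N) N) ×ˢ (Set.Icc (-N) N) : Set (ℤ × ℤ)).Finite :=
    (Set.finite_Icc _ _).prod (Set.finite_Icc _ _)
  refine (hfin.image fun p : ℤ × ℤ => (⟨p.1, p.2⟩ : A)).subset ?_
  rintro x ⟨h1, h2⟩
  have hC : C ≤ N := Int.le_ceil C
  rw [abs_le] at h1 h2
  have e1 : fR x = x.re + x.im * rho := fR_apply x
  have e2 : fR (star x) = x.re - x.im * rho := by
    rw [fR_apply]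
    simp
    ring
  have hr := rho_gt
  have r1 : |(x.re : ℝ)| ≤ N := by
    rw [abs_le]
    constructor <;> linarith
  have r2 : |(x.im : ℝ)| ≤ N := by
    have : |(x.im : ℝ) * rho| ≤ N := by
      rw [abs_le]
      constructor <;> linarith
    rw [abs_mul, abs_of_pos rho_pos] at this
    have := abs_nonneg (x.im : ℝ)
    nlinarith
  refine ⟨(x.re, x.im), ⟨?_, ?_⟩, rfl⟩
  · rw [abs_le] at r1
    exact ⟨by exact_mod_cast r1.1, by exact_mod_cast r1.2⟩
  · rw [abs_le] at r2
    exact ⟨by exact_mod_cast r2.1, by exact_mod_cast r2.2⟩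

/-- Discreteness: an element of bounded size whose absolute value is very close to a small integer
has exactly this absolute value. -/
lemma gap (C : ℝ) (D0 : ℕ) : ∃ ε > 0, ∀ (x : A) (D : ℕ), x ≠ 0 → 1 ≤ D → D ≤ D0 → |fR x| ≤ C →
    |fR (star x)| ≤ C → |Real.log |fR x| - Real.log D| < ε → |fR x| = D := by
  set T : Set ℝ := (fun p : A × ℕ => Real.log |fR p.1| - Real.log p.2) ''
    ({x : A | |fR x| ≤ C ∧ |fR (star x)| ≤ C} ×ˢ (Set.Icc 1 D0)) with hT
  have hTf : T.Finite := ((finite_bdd C).prod (Set.finite_Icc _ _)).image _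
  have hTf' : (T \ {0}).Finite := hTf.subset Set.sdiff_subset
  have hnhds : (T \ {0})ᶜ ∈ nhds (0 : ℝ) := hTf'.isClosed.compl_mem_nhds (by simp)
  obtain ⟨ε, hε, hball⟩ := Metric.mem_nhds_iff.1 hnhds
  refine ⟨ε, hε, ?_⟩
  intro x D hx hD1 hD0 hx1 hx2 hlog
  have hmem : Real.log |fR x| - Real.log D ∈ Metric.ball (0 : ℝ) ε := by
    rw [Metric.mem_ball, dist_zero_right, Real.norm_eq_abs]
    exact hlog
  have h1 := hball hmem
  have h2 : Real.log |fR x| - Real.log D ∈ T := ⟨(x, D), ⟨⟨hx1, hx2⟩, ⟨hD1, hD0⟩⟩, rfl⟩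
  have h3 : Real.log |fR x| - Real.log D = 0 := by
    by_contra h
    exact h1 ⟨h2, h⟩
  have hpos : 0 < |fR x| := by
    rw [abs_pos]
    intro h
    exact hx (phi_injective fR (by rw [h, map_zero]))
  have hDpos : (0 : ℝ) < D := by exact_mod_cast hD1
  exact Real.log_injOn_pos hpos hDpos (by linarith)

/-- The value at `√19`. -/
noncomputable def evA (f : ℤ[X]) : A := f.eval₂ (Int.castRingHom A) rt

lemma evA_mul (f g : ℤ[X]) : evA (f * g) = evA f * evA g := eval₂_mul _ _

lemma fC_evA (f : ℤ[X]) : fC (evA f) = (f.map (Int.castRingHom ℂ)).eval (rho : ℂ) := by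
  rw [evA, hom_eval₂, eval_map, fC_apply, fR_rt]
  congr 1
  exact RingHom.ext_int _ _

lemma star_evA (f : ℤ[X]) : star (evA f) = f.eval₂ (Int.castRingHom A) (-rt) := by
  have h : star (evA f) = starRingEnd A (evA f) := rfl
  rw [h, evA, hom_eval₂, starRingEnd_apply, star_rt]
  congr 1

lemma fC_star_evA (f : ℤ[X]) :
    fC (star (evA f)) = (f.map (Int.castRingHom ℂ)).eval (-(rho : ℂ)) := by
  rw [star_evA, hom_eval₂, eval_map, map_neg, fC_apply, fR_rt]
  congr 1
  exact RingHom.ext_int _ _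

lemma two_evA_PP {s : ℕ} (hs : 1 ≤ s) (j : ℕ) : 2 * evA (PP s j) =
    9 * star p5 ^ 9 * (star eps ^ j) ^ 3 * ((2 * rt) ^ 3 * ((2 * rt) ^ s) ^ 3) := by
  have h1 := congrArg (eval rt) (two_rePoly (RingHom.id A) (FF s j))
  rw [eval_mul, eval_add, eval_ofNat, eval_map] at h1
  have h2 : evA (PP s j) = eval₂ (Int.castRingHom A) rt (rePoly (FF s j)) := rfl
  rw [h2, h1]
  have e : ∀ φ : A →+* A, ((FF s j).map φ).eval rt =
      ∑ i, φ (cc j i) * ((ee s i).map φ).eval rt := by
    intro φ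
    simp only [FF, Polynomial.map_sum, eval_finsetSum, Polynomial.map_mul, map_C, eval_mul, eval_C]
  rw [e, e]
  have z : rt - rt = 0 := by ring
  simp only [Fin.sum_univ_six, cc, ee, Matrix.cons_val, Lm, Lp,
      Polynomial.map_mul, Polynomial.map_pow, Polynomial.map_sub, map_X, map_C, eval_mul,
      eval_pow, eval_sub, eval_X, eval_C, RingHom.comp_apply, starRingEnd_apply, star_rt,
      star_neg, RingHom.id_apply, sub_neg_eq_add, neg_neg, z, zero_pow (by omega : s ≠ 0)]
  ring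

lemma norm_p5 : Zsqrtd.norm (star p5) = 5 := by decide

lemma norm_eps' : Zsqrtd.norm (star eps) = 1 := by decide

lemma norm_pow' (x : A) (n : ℕ) : Zsqrtd.norm (x ^ n) = Zsqrtd.norm x ^ n := by
  induction n with
  | zero => rw [pow_zero, pow_zero]; exact Zsqrtd.norm_one
  | succ n ih => rw [pow_succ, pow_succ, Zsqrtd.norm_mul, ih]

/-- The norm of the value at `√19` does not depend on `j`. -/
lemma norm_evA_PP {s : ℕ} (hs : 1 ≤ s) (j : ℕ) :
    4 * Zsqrtd.norm (evA (PP s j)) = 81 * 5 ^ 9 * ((-76) ^ 3 * ((-76) ^ s) ^ 3) := by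
  have h := congrArg Zsqrtd.norm (two_evA_PP hs j)
  have n2 : Zsqrtd.norm (2 : A) = 4 := by decide
  have n9 : Zsqrtd.norm (9 : A) = 81 := by decide
  have nr : Zsqrtd.norm (2 * rt) = -76 := by decide
  rw [Zsqrtd.norm_mul, Zsqrtd.norm_mul, Zsqrtd.norm_mul, Zsqrtd.norm_mul, Zsqrtd.norm_mul,
    norm_pow', norm_pow', norm_pow', norm_pow', norm_pow', norm_pow', nr, n2, n9, norm_p5,
    norm_eps', one_pow, one_pow, mul_one] at h
  exact h

lemma log_eval (z c : ℂ) (hc : c ≠ 0) (S : Multiset ℂ) : (∀ a ∈ S, z - a ≠ 0) →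
    Real.log ‖(C c * (S.map fun a => X - C a).prod).eval z‖ =
      Real.log ‖c‖ + (S.map fun a => Real.log ‖z - a‖).sum ∧
    (C c * (S.map fun a => X - C a).prod).eval z ≠ 0 := by
  induction S using Multiset.induction_on with
  | empty => intro _; simpa using hc
  | cons a S ih =>
    intro h
    obtain ⟨h1, h2⟩ := ih fun b hb => h b (Multiset.mem_cons_of_mem hb)
    have ha := h a (Multiset.mem_cons_self a S)
    have hq : C c * (((a ::ₘ S).map fun a => X - C a).prod) =
        (X - C a) * (C c * (S.map fun a => X - C a).prod) := by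
      rw [Multiset.map_cons, Multiset.prod_cons]
      ring
    have hev : ((X - C a) * (C c * (S.map fun a => X - C a).prod)).eval z =
        (z - a) * (C c * (S.map fun a => X - C a).prod).eval z := by
      rw [eval_mul, eval_sub, eval_X, eval_C]
    rw [hq, hev]
    refine ⟨?_, mul_ne_zero ha h2⟩
    rw [norm_mul, Real.log_mul (norm_ne_zero_iff.2 ha) (norm_ne_zero_iff.2 h2), h1,
      Multiset.map_cons, Multiset.sum_cons]
    ring

lemma sum_split (t r : ℝ) (S : Multiset ℂ) :
    (S.map fun x : ℂ => t + Real.log ‖(r : ℂ) - x‖ - Real.log ‖-(r : ℂ) - x‖).sum =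
      S.card * t + (S.map fun x => Real.log ‖(r : ℂ) - x‖).sum -
        (S.map fun x => Real.log ‖-(r : ℂ) - x‖).sum := by
  induction S using Multiset.induction_on with
  | empty => simp
  | cons a S ih =>
    rw [Multiset.map_cons, Multiset.map_cons, Multiset.map_cons, Multiset.sum_cons,
      Multiset.sum_cons, Multiset.sum_cons, ih, Multiset.card_cons]
    push_cast
    ring

/-- The sum of the sizes of the roots of a factor, up to a small error. -/
lemma sum_types {s : ℕ} (hs : 1 ≤ s) {W ε : ℝ} (hε : 0 ≤ ε) (S : Multiset ℝ) :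
    (∀ ℓ ∈ S, Typ s W ε ℓ) → ∃ a b c : ℕ, a + b + c = S.card ∧
      |(s * (2 * s + 1) : ℝ) * S.sum - (a * (s * (2 * s + 1)) * Real.log 125 -
        b * (2 * s + 1) * Real.log (27 * W) - c * (2 * s) * Real.log W)| ≤
        S.card * ((s * (2 * s + 1)) * ε) := by
  have hs1 : (1 : ℝ) ≤ s := by exact_mod_cast hs
  induction S using Multiset.induction_on with
  | empty => intro _; exact ⟨0, 0, 0, by simp, by simp⟩
  | cons x S ih =>
    intro h
    obtain ⟨a, b, c, habc, hb⟩ := ih fun y hy => h y (Multiset.mem_cons_of_mem hy)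
    have hx := h x (Multiset.mem_cons_self x S)
    rw [Multiset.card_cons, Multiset.sum_cons]
    rw [abs_le] at hb
    push_cast
    rcases hx with hx | hx | hx
    · refine ⟨a + 1, b, c, by omega, ?_⟩
      rw [abs_le] at hx ⊢
      have h1 := mul_le_mul_of_nonneg_left hx.1 (by positivity : (0 : ℝ) ≤ s * (2 * s + 1))
      have h2 := mul_le_mul_of_nonneg_left hx.2 (by positivity : (0 : ℝ) ≤ s * (2 * s + 1))
      push_cast
      constructor <;> nlinarith
    · refine ⟨a, b + 1, c, by omega, ?_⟩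
      rw [abs_le] at hx ⊢
      have h1 := mul_le_mul_of_nonneg_left hx.1 (by positivity : (0 : ℝ) ≤ 2 * s + 1)
      have h2 := mul_le_mul_of_nonneg_left hx.2 (by positivity : (0 : ℝ) ≤ 2 * s + 1)
      have h3 : (2 * (s : ℝ) + 1) * ε ≤ (s * (2 * s + 1)) * ε := by
        have : (2 * (s : ℝ) + 1) ≤ s * (2 * s + 1) := by nlinarith
        exact mul_le_mul_of_nonneg_right this hε
      push_cast
      constructor <;> nlinarith
    · refine ⟨a, b, c + 1, by omega, ?_⟩
      rw [abs_le] at hx ⊢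
      have h1 := mul_le_mul_of_nonneg_left hx.1 (by positivity : (0 : ℝ) ≤ s)
      have h2 := mul_le_mul_of_nonneg_left hx.2 (by positivity : (0 : ℝ) ≤ s)
      have h3 : (s : ℝ) * ε ≤ (s * (2 * s + 1)) * ε := by
        have : (s : ℝ) ≤ s * (2 * s + 1) := by nlinarith
        exact mul_le_mul_of_nonneg_right this hε
      push_cast
      constructor <;> nlinarith

lemma pow35 {α β γ δ : ℕ} (h : 3 ^ α * 5 ^ β = 3 ^ γ * 5 ^ δ) : α = γ ∧ β = δ := by
  have h3 : Nat.Prime 3 := Nat.prime_three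
  have h5 : Nat.Prime 5 := Nat.prime_five
  have e : ∀ x y : ℕ, (3 ^ x * 5 ^ y).factorization = Finsupp.single 3 x + Finsupp.single 5 y := by
    intro x y
    rw [Nat.factorization_mul (pow_ne_zero _ (by norm_num)) (pow_ne_zero _ (by norm_num)),
      h3.factorization_pow, h5.factorization_pow]
  have h' := congrArg Nat.factorization h
  rw [e, e] at h'
  constructor
  · have := DFunLike.congr_fun h' 3
    simpa using this
  · have := DFunLike.congr_fun h' 5
    simpa using this

/-- The arithmetic at the end. -/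
lemma arith_end {s a b c : ℕ} (hs : 1 ≤ s) (h0 : 0 < a + b + c) (hn : a + b + c < 3 * s + 3)
    (h3 : (a * (s * (2 * s + 1)) + c * s + (b * (2 * s + 1) + 2 * s * c)) +
      6 * (b * (2 * s + 1)) = 4 * (b * (2 * s + 1) + 2 * s * c))
    (h5 : 3 * (a * (s * (2 * s + 1)) + c * s + (b * (2 * s + 1) + 2 * s * c)) =
      6 * (a * (s * (2 * s + 1))) + 2 * (b * (2 * s + 1) + 2 * s * c)) : False := by
  have e1 : 5 * (c * s) = a * (s * (2 * s + 1)) + 3 * (b * (2 * s + 1)) := by nlinarith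
  have e2 : 5 * (c * s) + b * (2 * s + 1) = 3 * (a * (s * (2 * s + 1))) := by nlinarith
  have e3 : 2 * b * (2 * s + 1) = a * s * (2 * s + 1) := by nlinarith
  have e4 : 2 * b = a * s := Nat.eq_of_mul_eq_mul_right (by omega) e3
  have e5 : 2 * c * s = a * (2 * s + 1) * s := by nlinarith
  have e6 : 2 * c = a * (2 * s + 1) := Nat.eq_of_mul_eq_mul_right (by omega) e5
  rcases Nat.lt_or_ge a 2 with ha | ha
  · interval_cases a
    · omega
    · omega
  · have : 2 * (2 * s + 1) ≤ a * (2 * s + 1) := Nat.mul_le_mul_right _ ha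
    have : 2 * s ≤ a * s := Nat.mul_le_mul_right _ ha
    omega

/-- The element `q_j`. -/
def qA (j : ℕ) : A := -star p3 * p5 ^ 2 * (star eps ^ j) ^ 2

/-- The element `τ_j`. -/
def tauA (j : ℕ) : A := p3 * p5 ^ 3 * (eps ^ j) ^ 4

/-- The numerator of the element attached to a factor. -/
def xx (s a b c j : ℕ) (y : A) : A :=
  tauA j ^ (a * (s * (2 * s + 1)) + c * s) * y ^ (2 * (s * (2 * s + 1))) *
    27 ^ (b * (2 * s + 1)) * qA j ^ (b * (2 * s + 1) + 2 * s * c) *
    p5 ^ (b * (2 * s + 1) + 2 * s * c)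

/-- The denominator of the element attached to a factor. -/
def DD (s a b c m : ℕ) : ℕ :=
  m ^ (s * (2 * s + 1)) * 125 ^ (a * (s * (2 * s + 1))) * 45 ^ (b * (2 * s + 1) + 2 * s * c)

lemma fR_qA_pos (j : ℕ) : 0 < fR (qA j) := by
  have h1 := rho_gt
  have h2 := rho_pos
  have h3 := UU_pos j
  rw [qA, map_mul, map_mul, map_neg, map_pow fR p5, map_pow fR (star eps ^ j), fR_p3', fR_p5,
    fR_eps']
  have : 0 < -(4 - rho) := by linarith
  positivity

lemma fR_tauA (j : ℕ) : fR (tauA j) = tau fR j := by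
  rw [tauA, map_mul, map_mul, map_pow fR p5, map_pow fR (eps ^ j), tau]

lemma tau_pos (j : ℕ) : 0 < tau fR j := by
  rw [tau_fR]
  have := t0_pos
  have := UU_pos j
  positivity

lemma WW_fR_eq (s j : ℕ) : WW fR s j = fR (qA j) / (9 * fR (star p5) * tau fR j ^ s) := by
  rw [WW, ww, qA, map_mul, map_mul, map_neg, map_pow fR p5, map_pow fR (star eps ^ j)]
  rw [div_div]

lemma log_identity {s a b c j : ℕ} {y : A} (hy : y ≠ 0) :
    Real.log |fR (xx s a b c j y)| - Real.log (DD s a b c (Zsqrtd.norm y).natAbs) =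
      (s * (2 * s + 1) : ℝ) * ((a + b + c) * Real.log (tau fR j) + Real.log |fR y| -
        Real.log |fR (star y)|) - (a * (s * (2 * s + 1)) * Real.log 125 -
        b * (2 * s + 1) * Real.log (27 * WW fR s j) - c * (2 * s) * Real.log (WW fR s j)) := by
  have hy1 : fR y ≠ 0 := fun h => hy (phi_injective fR (by rw [h, map_zero]))
  have hy2 : fR (star y) ≠ 0 := by
    intro h
    have h1 : star y = 0 := phi_injective fR (by rw [h, map_zero])
    exact hy (by rw [← star_star y, h1, star_zero])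
  have hm : (((Zsqrtd.norm y).natAbs : ℕ) : ℝ) = |fR y| * |fR (star y)| := by
    rw [← abs_mul, ← map_mul, ← Zsqrtd.norm_eq_mul_conj, map_intCast, Nat.cast_natAbs,
      Int.cast_abs]
  have hτ := tau_pos j
  have hq := fR_qA_pos j
  have h5 : 0 < fR p5 := by rw [fR_p5]; have := rho_pos; linarith
  have h5' : 0 < fR (star p5) := by rw [fR_p5']; have := rho_lt; linarith
  have h55 : Real.log 5 = Real.log (fR p5) + Real.log (fR (star p5)) := by
    rw [← Real.log_mul h5.ne' h5'.ne', phi_p5]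
  have h45 : Real.log 45 = Real.log 9 + Real.log 5 := by
    rw [← Real.log_mul (by norm_num) (by norm_num)]
    norm_num
  have hW : Real.log (WW fR s j) = Real.log (fR (qA j)) - Real.log 9 - Real.log (fR (star p5)) -
      s * Real.log (tau fR j) := by
    rw [WW_fR_eq, Real.log_div hq.ne' (by positivity), Real.log_mul (by positivity) (by positivity),
      Real.log_mul (by positivity) h5'.ne', Real.log_pow]
    ring
  have hWpos : 0 < WW fR s j := by rw [WW_fR]; exact pow_pos (wj_pos s j) 2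
  have h27 : Real.log (27 * WW fR s j) = Real.log 27 + Real.log (WW fR s j) :=
    Real.log_mul (by norm_num) hWpos.ne'
  have hx : Real.log |fR (xx s a b c j y)| =
      (a * (s * (2 * s + 1)) + c * s : ℕ) * Real.log (tau fR j) +
      (2 * (s * (2 * s + 1)) : ℕ) * Real.log |fR y| + (b * (2 * s + 1) : ℕ) * Real.log 27 +
      (b * (2 * s + 1) + 2 * s * c : ℕ) * Real.log (fR (qA j)) +
      (b * (2 * s + 1) + 2 * s * c : ℕ) * Real.log (fR p5) := by
    rw [xx, map_mul, map_mul, map_mul, map_mul, map_pow fR (tauA j), map_pow fR y, map_pow fR 27,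
      map_pow fR (qA j), map_pow fR p5, fR_tauA, map_ofNat, abs_mul, abs_mul, abs_mul, abs_mul,
      abs_pow, abs_pow, abs_pow, abs_pow, abs_pow, abs_of_pos hτ, abs_of_pos hq, abs_of_pos h5,
      abs_of_pos (by norm_num : (0 : ℝ) < 27)]
    have hy1' : |fR y| ≠ 0 := abs_ne_zero.2 hy1
    rw [Real.log_mul (by positivity) (by positivity), Real.log_mul (by positivity) (by positivity),
      Real.log_mul (by positivity) (by positivity), Real.log_mul (by positivity) (by positivity),
      Real.log_pow, Real.log_pow, Real.log_pow, Real.log_pow, Real.log_pow]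
  have hD : Real.log (DD s a b c (Zsqrtd.norm y).natAbs) =
      (s * (2 * s + 1) : ℕ) * (Real.log |fR y| + Real.log |fR (star y)|) +
      (a * (s * (2 * s + 1)) : ℕ) * Real.log 125 +
      (b * (2 * s + 1) + 2 * s * c : ℕ) * Real.log 45 := by
    have hy1' : |fR y| ≠ 0 := abs_ne_zero.2 hy1
    have hy2' : |fR (star y)| ≠ 0 := abs_ne_zero.2 hy2
    rw [DD]
    push_cast
    have hm' := hm
    rw [hm', Real.log_mul (by positivity) (by positivity),
      Real.log_mul (by positivity) (by positivity), Real.log_pow, Real.log_pow, Real.log_pow,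
      Real.log_mul hy1' hy2']
    push_cast
    ring
  rw [hx, hD, h27, hW, h45, h55]
  push_cast
  ring

lemma norm_xx (s a b c j : ℕ) (y : A) : (Zsqrtd.norm (xx s a b c j y)).natAbs =
    375 ^ (a * (s * (2 * s + 1)) + c * s) * (Zsqrtd.norm y).natAbs ^ (2 * (s * (2 * s + 1))) *
      729 ^ (b * (2 * s + 1)) * 375 ^ (b * (2 * s + 1) + 2 * s * c) := by
  have n1 : Zsqrtd.norm (tauA j) = -375 := by
    have e1 : Zsqrtd.norm p3 = -3 := by decide
    have e2 : Zsqrtd.norm p5 = 5 := by decide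
    have e3 : Zsqrtd.norm eps = 1 := by decide
    rw [tauA, Zsqrtd.norm_mul, Zsqrtd.norm_mul, norm_pow', norm_pow', norm_pow', e1, e2, e3]
    norm_num
  have n2 : Zsqrtd.norm (qA j) = -75 := by
    have e1 : Zsqrtd.norm (-star p3) = -3 := by decide
    have e2 : Zsqrtd.norm p5 = 5 := by decide
    rw [qA, Zsqrtd.norm_mul, Zsqrtd.norm_mul, norm_pow', norm_pow', norm_pow', e1, e2, norm_eps']
    norm_num
  have n27 : Zsqrtd.norm (27 : A) = 729 := by decide
  have n5 : Zsqrtd.norm p5 = 5 := by decide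
  rw [xx, Zsqrtd.norm_mul, Zsqrtd.norm_mul, Zsqrtd.norm_mul, Zsqrtd.norm_mul, norm_pow', norm_pow',
    norm_pow', norm_pow', norm_pow', n1, n2, n27, n5, Int.natAbs_mul, Int.natAbs_mul,
    Int.natAbs_mul, Int.natAbs_mul, Int.natAbs_pow, Int.natAbs_pow, Int.natAbs_pow,
    Int.natAbs_pow, Int.natAbs_pow]
  have e : (375 : ℕ) = 75 * 5 := by norm_num
  have e' : (375 : ℕ) ^ (b * (2 * s + 1) + 2 * s * c) =
      75 ^ (b * (2 * s + 1) + 2 * s * c) * 5 ^ (b * (2 * s + 1) + 2 * s * c) := by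
    rw [e, mul_pow]
  rw [e']
  show 375 ^ _ * _ * 729 ^ _ * 75 ^ _ * 5 ^ _ = _
  ring

/-- The equality of numbers which a factor would give. -/
lemma final_eq {s a b c m : ℕ} (hs : 1 ≤ s) (hm : 0 < m) (h0 : 0 < a + b + c)
    (hn : a + b + c < 3 * s + 3)
    (h : 375 ^ (a * (s * (2 * s + 1)) + c * s) * m ^ (2 * (s * (2 * s + 1))) *
      729 ^ (b * (2 * s + 1)) * 375 ^ (b * (2 * s + 1) + 2 * s * c) = DD s a b c m ^ 2) : False := by
  set M := s * (2 * s + 1) with hM
  set B := b * (2 * s + 1) + 2 * s * c with hB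
  have e1 : DD s a b c m ^ 2 = m ^ (2 * M) * (3 ^ (4 * B) * 5 ^ (6 * (a * M) + 2 * B)) := by
    rw [DD, ← hM, ← hB]
    have a1 : (125 : ℕ) ^ (a * M) = 5 ^ (3 * (a * M)) := by
      rw [pow_mul 5 3]
      norm_num
    have a2 : (45 : ℕ) ^ B = 3 ^ (2 * B) * 5 ^ B := by
      rw [pow_mul 3 2, ← mul_pow]
      norm_num
    rw [a1, a2]
    ring
  have e2 : 375 ^ (a * M + c * s) * m ^ (2 * M) * 729 ^ (b * (2 * s + 1)) * 375 ^ B =
      m ^ (2 * M) * (3 ^ ((a * M + c * s + B) + 6 * (b * (2 * s + 1))) *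
        5 ^ (3 * (a * M + c * s + B))) := by
    have a1 : ∀ k : ℕ, (375 : ℕ) ^ k = 3 ^ k * 5 ^ (3 * k) := by
      intro k
      rw [pow_mul 5 3, ← mul_pow]
      norm_num
    have a2 : (729 : ℕ) ^ (b * (2 * s + 1)) = 3 ^ (6 * (b * (2 * s + 1))) := by
      rw [pow_mul 3 6]
      norm_num
    rw [a1, a1, a2]
    ring
  rw [e1, e2] at h
  have h1 := Nat.eq_of_mul_eq_mul_left (pow_pos hm _) h
  obtain ⟨h3, h5⟩ := pow35 h1
  exact arith_end hs h0 hn h3 h5

/-- For all large `j` the polynomial `P_j` has no proper factor. -/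
theorem no_factor {s : ℕ} (hs : 1 ≤ s) : ∀ᶠ j in atTop, ∀ f g : ℤ[X], PP s j = f * g →
    0 < f.natDegree → f.natDegree < 3 * s + 3 → False := by
  set n := 3 * s + 3 with hn
  set M := s * (2 * s + 1) with hM
  have hMpos : 0 < M := by rw [hM]; positivity
  set N1 : ℕ := 81 * 5 ^ 9 * 76 ^ (3 * s + 3) with hN1
  have hN1pos : 1 ≤ N1 := Nat.succ_le_of_lt (by rw [hN1]; positivity)
  set Eb : ℕ := n * (2 * s + 1) + 2 * s * n with hEb
  set D0 : ℕ := N1 ^ M * 125 ^ (n * M) * 45 ^ Eb with hD0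
  set K0 : ℕ := 375 ^ (n * M + n * s) * N1 ^ (2 * M) * 729 ^ (n * (2 * s + 1)) * 375 ^ Eb with hK0
  obtain ⟨ε, hε, hgap⟩ := gap (3 * D0 + 3 * K0) D0
  set ε0 : ℝ := min ε 1 / 2 with hε0
  have hε0pos : 0 < ε0 := by positivity
  have hε0ε : ε0 < ε := by
    have : min ε 1 ≤ ε := min_le_left _ _
    rw [hε0]; linarith
  have hε01 : ε0 ≤ 1 := by
    have : min ε 1 ≤ 1 := min_le_right _ _
    rw [hε0]; linarith
  have hnpos : (0 : ℝ) < n := by rw [hn]; positivity
  have hMposR : (0 : ℝ) < M := by exact_mod_cast hMpos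
  set ε1 : ℝ := ε0 / (n * M) with hε1
  have hε1pos : 0 < ε1 := by positivity
  obtain ⟨δ, hδ, htyp⟩ := types hs hε1pos
  have hw : ∀ᶠ j in atTop, WW fR s j < δ := by
    have h1 : Tendsto (wj s) atTop (nhds 0) := by
      unfold wj
      exact Tendsto.const_div_atTop
        ((tendsto_pow_atTop (by omega : 2 * s + 1 ≠ 0)).comp tendsto_UU) _
    have h2 : Tendsto (fun j => wj s j ^ 2) atTop (nhds 0) := by
      have := h1.pow 2
      rwa [zero_pow two_ne_zero] at this
    have h3 : (fun j => wj s j ^ 2) = WW fR s := funext fun j => (WW_fR s j).symm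
    rw [h3] at h2
    exact h2.eventually_lt_const hδ
  filter_upwards [hw, eventually_good fC s] with j hwj hgood f g hfg hf0 hfn
  -- the norms
  have hnorm := norm_evA_PP hs j
  rw [hfg, evA_mul, Zsqrtd.norm_mul] at hnorm
  set y := evA f with hy
  set m := (Zsqrtd.norm y).natAbs with hm
  have hne : Zsqrtd.norm y * Zsqrtd.norm (evA g) ≠ 0 := by
    intro h
    rw [h, mul_zero] at hnorm
    have : (81 * 5 ^ 9 * ((-76) ^ 3 * ((-76) ^ s) ^ 3) : ℤ) ≠ 0 := by positivity
    exact this hnorm.symm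
  have hny : Zsqrtd.norm y ≠ 0 := left_ne_zero_of_mul hne
  have hng : Zsqrtd.norm (evA g) ≠ 0 := right_ne_zero_of_mul hne
  have hy0 : y ≠ 0 := by
    intro h
    rw [h, Zsqrtd.norm_zero] at hny
    exact hny rfl
  have hm0 : 0 < m := Int.natAbs_pos.2 hny
  have hmN : m ≤ N1 := by
    have h1 := congrArg Int.natAbs hnorm
    rw [Int.natAbs_mul, Int.natAbs_mul] at h1
    have h2 : (81 * 5 ^ 9 * ((-76) ^ 3 * ((-76) ^ s) ^ 3) : ℤ).natAbs = N1 := by
      simp only [Int.natAbs_mul, Int.natAbs_pow]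
      rw [hN1]
      show 81 * 5 ^ 9 * (76 ^ 3 * (76 ^ s) ^ 3) = _
      ring
    rw [h2] at h1
    have h3 : 1 ≤ (Zsqrtd.norm (evA g)).natAbs := Int.natAbs_pos.2 hng
    have h4 : (4 : ℤ).natAbs = 4 := rfl
    rw [h4] at h1
    calc m ≤ m * (Zsqrtd.norm (evA g)).natAbs := Nat.le_mul_of_pos_right _ h3
      _ ≤ 4 * (m * (Zsqrtd.norm (evA g)).natAbs) := by omega
      _ = N1 := h1
  -- the roots of the factor
  set F : ℂ[X] := f.map (Int.castRingHom ℂ) with hF
  have hf_ne : f ≠ 0 := by rintro rfl; simp at hf0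
  have hF_ne : F ≠ 0 := by
    rw [hF, Ne, Polynomial.map_eq_zero_iff (RingHom.injective_int _)]
    exact hf_ne
  have hFdeg : F.natDegree = f.natDegree := natDegree_map_eq_of_injective (RingHom.injective_int _) _
  set S := F.roots with hS
  have hScard : S.card = f.natDegree := by
    rw [hS, ← (IsAlgClosed.splits F).natDegree_eq_card_roots, hFdeg]
  have hprod := (IsAlgClosed.splits F).eq_prod_roots
  set lc := F.leadingCoeff with hlc
  have hlc0 : lc ≠ 0 := leadingCoeff_ne_zero.2 hF_ne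
  have hyC : fC y ≠ 0 := fun h => hy0 (phi_injective fC (by rw [h, map_zero]))
  have hyC' : fC (star y) ≠ 0 := by
    intro h
    have h1 : star y = 0 := phi_injective fC (by rw [h, map_zero])
    exact hy0 (by rw [← star_star y, h1, star_zero])
  have hrF : F.eval (rho : ℂ) ≠ 0 := by rw [hF, ← fC_evA]; exact hyC
  have hrF' : F.eval (-(rho : ℂ)) ≠ 0 := by rw [hF, ← fC_star_evA]; exact hyC'
  have hroot : ∀ x ∈ S, F.eval x = 0 := fun x hx => (mem_roots hF_ne).1 hx
  have hx1 : ∀ x ∈ S, (rho : ℂ) - x ≠ 0 := by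
    intro x hx h
    have : x = rho := by linear_combination -h
    exact hrF (this ▸ hroot x hx)
  have hx2 : ∀ x ∈ S, -(rho : ℂ) - x ≠ 0 := by
    intro x hx h
    have : x = -rho := by linear_combination -h
    exact hrF' (this ▸ hroot x hx)
  have hτ := tau_pos j
  have hrt : fC rt = (rho : ℂ) := by rw [fC_apply, fR_rt]
  -- types
  have hT : ∀ ℓ ∈ S.map (fun x : ℂ => Real.log (tau fR j) + Real.log ‖(rho : ℂ) - x‖ -
      Real.log ‖-(rho : ℂ) - x‖), Typ s (WW fR s j) ε1 ℓ := by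
    intro ℓ hℓ
    obtain ⟨x, hx, rfl⟩ := Multiset.mem_map.1 hℓ
    have hPx : ((PP s j).map (Int.castRingHom ℂ)).eval x = 0 := by
      rw [hfg, Polynomial.map_mul, eval_mul, ← hF, hroot x hx, zero_mul]
    have hxr : x + fC rt ≠ 0 := by
      rw [hrt]
      intro h
      exact hx2 x hx (by linear_combination -h)
    have h1 := eval_PP fC s j hxr
    rw [hPx, mul_zero] at h1
    have h2 := (mul_eq_zero.1 h1.symm).resolve_left
      (mul_ne_zero (cst_ne fC j) (pow_ne_zero _ hxr))
    obtain ⟨Y, hY, hYZ⟩ := exists_param hs (WW_ne fC s j) hgood h2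
    have hWW : WW fC s j = ((WW fR s j : ℝ) : ℂ) := by rw [WW_fC, WW_fR]
    rw [hWW] at hY
    have h3 := htyp (WW fR s j) (by rw [WW_fR]; exact pow_pos (wj_pos s j) 2) hwj Y hY
    rw [hYZ, hrt, norm_div, norm_mul] at h3
    have e1 : ‖x - (rho : ℂ)‖ = ‖(rho : ℂ) - x‖ := norm_sub_rev _ _
    have e2 : ‖x + (rho : ℂ)‖ = ‖-(rho : ℂ) - x‖ := by
      rw [← norm_neg]; congr 1; ring
    have e3 : ‖tau fC j‖ = tau fR j := by
      rw [tau_fC, Complex.norm_real, Real.norm_eq_abs, abs_of_pos hτ]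
    rw [e1, e2, e3, Real.log_div (mul_ne_zero hτ.ne' (norm_ne_zero_iff.2 (hx1 x hx)))
      (norm_ne_zero_iff.2 (hx2 x hx)), Real.log_mul hτ.ne' (norm_ne_zero_iff.2 (hx1 x hx))] at h3
    exact h3
  obtain ⟨a, b, c, habc, hsum⟩ := sum_types hs hε1pos.le _ hT
  rw [Multiset.card_map, hScard] at habc hsum
  -- the sum
  have hsumval : (S.map (fun x : ℂ => Real.log (tau fR j) + Real.log ‖(rho : ℂ) - x‖ -
      Real.log ‖-(rho : ℂ) - x‖)).sum = (a + b + c : ℝ) * Real.log (tau fR j) +
        Real.log |fR y| - Real.log |fR (star y)| := by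
    rw [sum_split, hScard, ← habc]
    have l1 := (log_eval (rho : ℂ) lc hlc0 S hx1).1
    have l2 := (log_eval (-(rho : ℂ)) lc hlc0 S hx2).1
    rw [← hprod, hF, ← fC_evA, fC_apply, Complex.norm_real, Real.norm_eq_abs] at l1
    rw [← hprod, hF, ← fC_star_evA, fC_apply, Complex.norm_real, Real.norm_eq_abs] at l2
    push_cast
    linarith
  rw [hsumval, ← log_identity hy0] at hsum
  have hlogle : |Real.log |fR (xx s a b c j y)| - Real.log (DD s a b c m)| ≤ ε0 := by
    refine hsum.trans ?_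
    have h1 : (f.natDegree : ℝ) ≤ n := by exact_mod_cast hfn.le
    have h2 : (M : ℝ) = s * (2 * s + 1) := by rw [hM]; push_cast; ring
    rw [← h2]
    calc (f.natDegree : ℝ) * (M * ε1) ≤ n * (M * ε1) := by gcongr
      _ = ε0 := by rw [hε1]; field_simp
  -- the contradiction
  set x := xx s a b c j y with hxdef
  set D := DD s a b c m with hDdef
  have hnx := norm_xx s a b c j y
  rw [← hxdef, ← hm] at hnx
  have hnx0 : 0 < (Zsqrtd.norm x).natAbs := by rw [hnx]; positivity
  have hx0 : x ≠ 0 := by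
    intro h
    rw [h, Zsqrtd.norm_zero] at hnx0
    exact absurd hnx0 (by norm_num)
  have ha : a ≤ n := by omega
  have hb : b ≤ n := by omega
  have hc : c ≤ n := by omega
  have hBE : b * (2 * s + 1) + 2 * s * c ≤ Eb := by
    rw [hEb]
    have := Nat.mul_le_mul_right (2 * s + 1) hb
    have := Nat.mul_le_mul_left (2 * s) hc
    omega
  have haM : a * M ≤ n * M := Nat.mul_le_mul_right M ha
  have hDpos : 1 ≤ D := Nat.succ_le_of_lt (by rw [hDdef, DD]; positivity)
  have hDle : D ≤ D0 := by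
    rw [hDdef, DD, hD0, ← hM]
    exact Nat.mul_le_mul (Nat.mul_le_mul (Nat.pow_le_pow_left hmN M)
      (Nat.pow_le_pow_right (by norm_num) haM)) (Nat.pow_le_pow_right (by norm_num) hBE)
  have hnK : (Zsqrtd.norm x).natAbs ≤ K0 := by
    rw [hnx, hK0, ← hM]
    refine Nat.mul_le_mul (Nat.mul_le_mul (Nat.mul_le_mul ?_ ?_) ?_) ?_
    · refine Nat.pow_le_pow_right (by norm_num) ?_
      have := Nat.mul_le_mul_right s hc
      omega
    · exact Nat.pow_le_pow_left hmN _
    · exact Nat.pow_le_pow_right (by norm_num) (Nat.mul_le_mul_right _ hb)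
    · exact Nat.pow_le_pow_right (by norm_num) hBE
  have hDR : (1 : ℝ) ≤ D := by exact_mod_cast hDpos
  have hDR0 : (D : ℝ) ≤ D0 := by exact_mod_cast hDle
  have hxpos : 0 < |fR x| := by
    rw [abs_pos]
    intro h
    exact hx0 (phi_injective fR (by rw [h, map_zero]))
  have he3 : Real.exp 1 < 3 := Real.exp_one_lt_three
  rw [abs_le] at hlogle
  have hup : |fR x| ≤ 3 * D := by
    have h1 : Real.log |fR x| ≤ Real.log D + 1 := by linarith [hlogle.2]
    have h2 := Real.exp_le_exp.2 h1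
    rw [Real.exp_log hxpos, Real.exp_add, Real.exp_log (by linarith)] at h2
    nlinarith
  have hlow : D ≤ 3 * |fR x| := by
    have h1 : Real.log D ≤ Real.log |fR x| + 1 := by linarith [hlogle.1]
    have h2 := Real.exp_le_exp.2 h1
    rw [Real.exp_log (by linarith), Real.exp_add, Real.exp_log hxpos] at h2
    nlinarith
  have hnormR : |fR x| * |fR (star x)| = ((Zsqrtd.norm x).natAbs : ℝ) := by
    rw [← abs_mul, ← map_mul, ← Zsqrtd.norm_eq_mul_conj, map_intCast, Nat.cast_natAbs,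
      Int.cast_abs]
  have hK0R : ((Zsqrtd.norm x).natAbs : ℝ) ≤ K0 := by exact_mod_cast hnK
  have hstar : |fR (star x)| ≤ 3 * K0 := by
    have h1 : 1 ≤ 3 * |fR x| := by linarith
    have h2 : 0 ≤ |fR (star x)| := abs_nonneg _
    nlinarith
  have hD0pos : (0 : ℝ) ≤ D0 := Nat.cast_nonneg _
  have hK0pos : (0 : ℝ) ≤ K0 := Nat.cast_nonneg _
  have hkey := hgap x D hx0 hDpos hDle (by linarith) (by linarith)
    (by rw [abs_lt]; constructor <;> linarith [hlogle.1, hlogle.2])
  have hnormD : Zsqrtd.norm x = (D : ℤ) * D := by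
    have hfD : fR ((D : ℕ) : A) = D := map_natCast fR D
    rcases abs_choice (fR x) with h | h
    · have h1 : x = ((D : ℕ) : A) := phi_injective fR (by rw [hfD, ← hkey, h])
      rw [h1, Zsqrtd.norm_natCast]
    · have h1 : -x = ((D : ℕ) : A) := phi_injective fR (by rw [hfD, ← hkey, h, map_neg])
      rw [← Zsqrtd.norm_neg, h1, Zsqrtd.norm_natCast]
  rw [hnormD] at hnx
  have hfin : DD s a b c m ^ 2 = 375 ^ (a * (s * (2 * s + 1)) + c * s) *
      m ^ (2 * (s * (2 * s + 1))) * 729 ^ (b * (2 * s + 1)) *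
      375 ^ (b * (2 * s + 1) + 2 * s * c) := by
    rw [← hnx, ← hDdef, Int.natAbs_mul, Int.natAbs_natCast]
    ring
  exact final_eq hs hm0 (by omega) (by omega) hfin.symm

end Pool.Agent.Lib.MP_625f41_nt.H7
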