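import Pool.Agent.Lib.MP_625f41_nt.H7.Irr

/-!
# The exponents of irreducible polynomials of degree `3 m`
-/

open Polynomial Filter

namespace Pool.Agent.Lib.MP_625f41_nt.H7

/-- A polynomial over `ℤ` without proper factors is irreducible over `ℚ`. -/
lemma irreducible_of_no_factor {P : ℤ[X]} {n : ℕ} (hn : 0 < n) (hP : P.natDegree = n)
    (h : ∀ f g : ℤ[X], P = f * g → 0 < f.natDegree → f.natDegree < n → False) :
    IrreducibleOverRat P := by
  have hP0 : P ≠ 0 := by
    rintro rfl
    rw [natDegree_zero] at hP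
    omega
  have hc0 : P.content ≠ 0 := by rwa [Ne, content_eq_zero_iff]
  have hprim := P.isPrimitive_primPart
  have hdeg : P.primPart.natDegree = n := by rw [natDegree_primPart, hP]
  have hcontent := P.eq_C_content_mul_primPart
  have hirr : Irreducible P.primPart := by
    rw [irreducible_iff]
    refine ⟨?_, ?_⟩
    · intro hu
      have := natDegree_eq_zero_of_isUnit hu
      omega
    · intro f g hfg
      have hf0 : f ≠ 0 := by rintro rfl; rw [zero_mul] at hfg; rw [hfg, natDegree_zero] at hdeg; omega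
      have hg0 : g ≠ 0 := by rintro rfl; rw [mul_zero] at hfg; rw [hfg, natDegree_zero] at hdeg; omega
      have hd : f.natDegree + g.natDegree = n := by
        rw [← natDegree_mul hf0 hg0, ← hfg, hdeg]
      rcases Nat.eq_zero_or_pos f.natDegree with hf | hf
      · left
        obtain ⟨a, rfl⟩ := natDegree_eq_zero.1 hf
        exact (hprim a ⟨g, hfg⟩).map C
      · rcases Nat.eq_zero_or_pos g.natDegree with hg | hg
        · right
          obtain ⟨a, rfl⟩ := natDegree_eq_zero.1 hg
          exact (hprim a ⟨f, by rw [hfg, mul_comm]⟩).map C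
        · exfalso
          refine h f (C P.content * g) ?_ hf (by omega)
          conv_lhs => rw [hcontent, hfg]
          ring
  have h1 := (IsPrimitive.Int.irreducible_iff_irreducible_map_cast hprim).1 hirr
  have hu : IsUnit (C ((P.content : ℤ) : ℚ)) := by
    rw [isUnit_C, isUnit_iff_ne_zero]
    exact_mod_cast hc0
  have h2 : P.map (Int.castRingHom ℚ) =
      C ((P.content : ℤ) : ℚ) * P.primPart.map (Int.castRingHom ℚ) := by
    conv_lhs => rw [hcontent]
    rw [Polynomial.map_mul, map_C]
    rfl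
  rw [IrreducibleOverRat, h2]
  exact (irreducible_isUnit_mul hu).2 h1

/-- Almost all members of the family are irreducible over `ℚ`. -/
theorem eventually_irreducible {s : ℕ} (hs : 1 ≤ s) :
    ∀ᶠ j in atTop, IrreducibleOverRat (PP s j) := by
  filter_upwards [no_factor hs] with j hj
  exact irreducible_of_no_factor (by omega) (natDegree_PP s j) hj

/-- The exponent of irreducible polynomials in degree `3 s + 3`. -/
theorem eStar_family {s : ℕ} (hs : 1 ≤ s) :
    (((10 * s + 9 : ℕ) : ℝ) / ((5 : ℕ) : ℝ) : ℝ) ≤ eStar (3 * s + 3) := by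
  refine exponent_of hs (fun P h => h.1) ?_
  filter_upwards [eventually_good fC s, eventually_irreducible hs] with j hj hi
  exact ⟨nodup_PP fC hs hj, hi⟩

/-- Both exponents in degree `3 m`. -/
theorem main (m : ℕ) (hm : 2 ≤ m) :
    ((2 * (m : ℝ) - 1 / 5 : ℝ) : EReal) ≤ eStar (3 * m) ∧
      ((2 * (m : ℝ) - 1 / 5 : ℝ) : EReal) ≤ e (3 * m) := by
  obtain ⟨s, rfl⟩ : ∃ s, m = s + 1 := ⟨m - 1, by omega⟩
  have hs : 1 ≤ s := by omega
  have e1 : (2 * ((s + 1 : ℕ) : ℝ) - 1 / 5 : ℝ) = ((10 * s + 9 : ℕ) : ℝ) / ((5 : ℕ) : ℝ) := by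
    push_cast
    ring
  have e2 : 3 * (s + 1) = 3 * s + 3 := by ring
  rw [e1, e2]
  exact ⟨eStar_family hs, e_family hs⟩

end Pool.Agent.Lib.MP_625f41_nt.H7
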