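import Pool.Agent.Lib.MP_625f41_nt.H7.Ana

/-!
# The three types of roots as `W` tends to `0`
-/

open Polynomial Filter

namespace Pool.Agent.Lib.MP_625f41_nt.H7

/-- The three possible sizes `ℓ = log |Z|` of a root, up to `ε`. -/
def Typ (s : ℕ) (W ε ℓ : ℝ) : Prop :=
  |ℓ - Real.log 125| ≤ ε ∨ |s * ℓ + Real.log (27 * W)| ≤ ε ∨
    |(2 * s + 1) * ℓ + 2 * Real.log W| ≤ ε

lemma near5 {ε : ℝ} (hε : 0 < ε) : ∃ η > 0, ∀ Y : ℂ, ‖Y - 5‖ < η →
    |Real.log ‖ZY Y‖ - Real.log 125| < ε := by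
  have h5 : ZY (5 : ℂ) = 125 := by rw [ZY]; norm_num
  have hc : ContinuousAt (fun Y : ℂ => Real.log ‖ZY Y‖) 5 := by
    have h1 : ContinuousAt (fun Y : ℂ => ZY Y) 5 := by
      unfold ZY
      exact ContinuousAt.div (by fun_prop) (by fun_prop) (by norm_num)
    refine ContinuousAt.log h1.norm ?_
    rw [h5]
    norm_num
  rw [Metric.continuousAt_iff] at hc
  obtain ⟨η, hη, h⟩ := hc ε hε
  refine ⟨η, hη, fun Y hY => ?_⟩
  have := h (by rw [dist_eq_norm]; exact hY)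
  rw [Real.dist_eq, h5] at this
  have h125 : ‖(125 : ℂ)‖ = 125 := by norm_num
  rwa [h125] at this

lemma near3 {ε : ℝ} (hε : 0 < ε) : ∃ η > 0, ∀ Y : ℂ, ‖Y - 3‖ < η →
    |Real.log ‖VY Y‖ + Real.log 27| < ε := by
  have h3 : VY (3 : ℂ) = 1 / 27 := by rw [VY]; norm_num
  have hc : ContinuousAt (fun Y : ℂ => Real.log ‖VY Y‖) 3 := by
    have h1 : ContinuousAt (fun Y : ℂ => VY Y) 3 := by
      unfold VY
      exact ContinuousAt.div (by fun_prop) (by fun_prop) (by norm_num)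
    refine ContinuousAt.log h1.norm ?_
    rw [h3]
    norm_num
  rw [Metric.continuousAt_iff] at hc
  obtain ⟨η, hη, h⟩ := hc ε hε
  refine ⟨η, hη, fun Y hY => ?_⟩
  have := h (by rw [dist_eq_norm]; exact hY)
  rw [Real.dist_eq, h3] at this
  have h27 : ‖(1 / 27 : ℂ)‖ = 27⁻¹ := by norm_num
  rw [h27, Real.log_inv, sub_neg_eq_add] at this
  exact this

lemma nearInf {ε : ℝ} (hε : 0 < ε) : ∃ η > 0, ∀ Y : ℂ, Y ≠ 0 → ‖Y⁻¹‖ < η →
    |Real.log ‖VY Y ^ 2 * ZY Y‖| < ε := by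
  have hc : ContinuousAt (fun t : ℂ => Real.log ‖(1 - 5 * t) ^ 4 * (1 + 5 * t) /
      ((1 + 3 * t) ^ 4 * (1 - 3 * t))‖) 0 := by
    have h1 : ContinuousAt (fun t : ℂ => (1 - 5 * t) ^ 4 * (1 + 5 * t) /
      ((1 + 3 * t) ^ 4 * (1 - 3 * t))) 0 :=
      ContinuousAt.div (by fun_prop) (by fun_prop) (by norm_num)
    refine ContinuousAt.log h1.norm ?_
    norm_num
  rw [Metric.continuousAt_iff] at hc
  obtain ⟨η, hη, h⟩ := hc ε hε
  refine ⟨min η (1 / 3), lt_min hη (by norm_num), fun Y hY0 hY => ?_⟩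
  have h1 := h (by rw [dist_eq_norm, sub_zero]; exact lt_of_lt_of_le hY (min_le_left _ _))
  have h2 : ‖Y⁻¹‖ < 1 / 3 := lt_of_lt_of_le hY (min_le_right _ _)
  have h3 : 3 < ‖Y‖ := by
    rw [norm_inv, inv_eq_one_div, div_lt_div_iff_of_pos_left one_pos (norm_pos_iff.2 hY0)
      (by norm_num)] at h2
    exact h2
  have h4 : Y - 3 ≠ 0 := by
    intro h
    have : Y = 3 := by linear_combination h
    rw [this] at h3
    norm_num at h3
  have h5 : Y + 3 ≠ 0 := by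
    intro h
    have : Y = -3 := by linear_combination h
    rw [this] at h3
    norm_num at h3
  have e : VY Y ^ 2 * ZY Y = (1 - 5 * Y⁻¹) ^ 4 * (1 + 5 * Y⁻¹) /
      ((1 + 3 * Y⁻¹) ^ 4 * (1 - 3 * Y⁻¹)) := by
    have h6 : 1 + 3 * Y⁻¹ ≠ 0 := by
      intro h
      apply h5
      have : Y * (1 + 3 * Y⁻¹) = 0 := by rw [h, mul_zero]
      rw [mul_add, mul_one, mul_left_comm, mul_inv_cancel₀ hY0, mul_one] at this
      exact this
    have h7 : 1 - 3 * Y⁻¹ ≠ 0 := by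
      intro h
      apply h4
      have : Y * (1 - 3 * Y⁻¹) = 0 := by rw [h, mul_zero]
      rw [mul_sub, mul_one, mul_left_comm, mul_inv_cancel₀ hY0, mul_one] at this
      exact this
    rw [VY, ZY, eq_div_iff (mul_ne_zero (pow_ne_zero _ h6) h7)]
    field_simp
  rw [Real.dist_eq] at h1
  rw [e]
  simpa using h1

/-- As `W` tends to `0`, every root is of one of the three types. -/
theorem types {s : ℕ} (hs : 1 ≤ s) {ε : ℝ} (hε : 0 < ε) : ∃ δ > 0, ∀ W : ℝ, 0 < W → W < δ →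
    ∀ Y : ℂ, (E s (W : ℂ)).eval Y = 0 → Typ s W ε (Real.log ‖ZY Y‖) := by
  obtain ⟨η1, hη1, h1⟩ := near5 hε
  obtain ⟨η2, hη2, h2⟩ := near3 hε
  obtain ⟨η3, hη3, h3⟩ := nearInf hε
  set η : ℝ := min η1 (min η2 η3) with hη
  have hη0 : 0 < η := lt_min hη1 (lt_min hη2 hη3)
  set R : ℝ := 1 / η with hR
  have hR0 : 0 < R := by positivity
  refine ⟨η ^ (s + 2) / (R ^ (2 * s + 1) * (R + 5) ^ s * (R + 3) ^ 2), by positivity, ?_⟩
  intro W hW0 hWδ Y hY
  have hWC : (W : ℂ) ≠ 0 := by exact_mod_cast hW0.ne'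
  obtain ⟨y0, y3, y3'⟩ := root_E_ne hs hWC hY
  have hV := V_of_root hs hWC hY
  have hY' := hY
  rw [eval_E, sub_eq_zero] at hY'
  have hV0 : VY Y ≠ 0 := by
    intro h0
    rw [VY, div_eq_zero_iff] at h0
    rcases h0 with h0 | h0
    · have : Y - 5 = 0 := (pow_eq_zero_iff two_ne_zero).1 h0
      have h5 : Y = 5 := by linear_combination this
      rw [h5] at hY'
      have e5 : (5 - 5 : ℂ) = 0 := by ring
      rw [e5, zero_pow two_ne_zero, zero_mul] at hY'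
      have : (W : ℂ) * (5 ^ (2 * s + 1) * (5 + 5) ^ s * (5 + 3) ^ 2) ≠ 0 := by
        refine mul_ne_zero hWC (mul_ne_zero (mul_ne_zero ?_ ?_) ?_) <;>
          exact pow_ne_zero _ (by norm_num)
      exact this hY'.symm
    · exact mul_ne_zero y0 (pow_ne_zero _ y3') h0
  have hZ0 : ZY Y ≠ 0 := by
    intro h0
    rw [h0, zero_pow (by omega), mul_zero] at hV
    exact hV0 hV.symm
  have hlogV : Real.log ‖VY Y‖ = Real.log W + s * Real.log ‖ZY Y‖ := by
    rw [← hV, norm_mul, norm_pow, Complex.norm_real, Real.norm_eq_abs, abs_of_pos hW0,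
      Real.log_mul hW0.ne' (pow_ne_zero _ (norm_ne_zero_iff.2 hZ0)), Real.log_pow]
  by_cases c1 : ‖Y - 5‖ < η
  · left
    exact (h1 Y (lt_of_lt_of_le c1 (min_le_left _ _))).le
  by_cases c2 : ‖Y - 3‖ < η
  · right; left
    have := h2 Y (lt_of_lt_of_le c2 ((min_le_right _ _).trans (min_le_left _ _)))
    rw [hlogV] at this
    rw [Real.log_mul (by norm_num) hW0.ne']
    have e : (s : ℝ) * Real.log ‖ZY Y‖ + (Real.log 27 + Real.log W) =
        Real.log W + s * Real.log ‖ZY Y‖ + Real.log 27 := by ring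
    rw [e]
    exact this.le
  by_cases c3 : ‖Y⁻¹‖ < η
  · right; right
    have := h3 Y y0 (lt_of_lt_of_le c3 ((min_le_right _ _).trans (min_le_right _ _)))
    rw [norm_mul, norm_pow, Real.log_mul (pow_ne_zero _ (norm_ne_zero_iff.2 hV0))
      (norm_ne_zero_iff.2 hZ0), Real.log_pow, hlogV] at this
    have e : (2 * (s : ℝ) + 1) * Real.log ‖ZY Y‖ + 2 * Real.log W =
        ((2 : ℕ) : ℝ) * (Real.log W + s * Real.log ‖ZY Y‖) + Real.log ‖ZY Y‖ := by
      push_cast; ring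
    rw [e]
    exact this.le
  -- no other possibility
  exfalso
  push Not at c1 c2 c3
  have hYR : ‖Y‖ ≤ R := by
    rw [norm_inv, inv_eq_one_div, le_div_iff₀ (norm_pos_iff.2 y0)] at c3
    rw [hR, le_div_iff₀ hη0]
    linarith
  have l1 : η ^ (s + 2) ≤ ‖(Y - 5) ^ 2 * (Y - 3) ^ s‖ := by
    rw [norm_mul, norm_pow, norm_pow]
    calc η ^ (s + 2) = η ^ 2 * η ^ s := by ring
      _ ≤ _ := by gcongr
  have l2 : ‖(W : ℂ) * (Y ^ (2 * s + 1) * (Y + 5) ^ s * (Y + 3) ^ 2)‖ ≤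
      W * (R ^ (2 * s + 1) * (R + 5) ^ s * (R + 3) ^ 2) := by
    rw [norm_mul, norm_mul, norm_mul, norm_pow, norm_pow, norm_pow, Complex.norm_real,
      Real.norm_eq_abs, abs_of_pos hW0]
    have n5 : ‖Y + 5‖ ≤ R + 5 := by
      refine (norm_add_le _ _).trans ?_
      have : ‖(5 : ℂ)‖ = 5 := by norm_num
      linarith
    have n3 : ‖Y + 3‖ ≤ R + 3 := by
      refine (norm_add_le _ _).trans ?_
      have : ‖(3 : ℂ)‖ = 3 := by norm_num
      linarith
    gcongr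
  rw [hY'] at l1
  have l3 := l1.trans l2
  rw [lt_div_iff₀ (by positivity)] at hWδ
  linarith

end Pool.Agent.Lib.MP_625f41_nt.H7
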